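import Pool.Agent.Helper87.TC.Stmts
import Pool.Agent.Helper87.VM.Lib

/-!
Small library for the modules of `Pool.Agent.Helper87.TC`.
-/

set_option autoImplicit false

namespace Pool.Agent.Helper87.TC

open MvPolynomial Pool.Agent.Helper48.VMRT Pool.Agent.Helper87.VM

section Closure

variable {κ : Type}

theorem mem_Cl {S : Set (κ → ℂ)} {x : κ → ℂ} :
    x ∈ Cl S ↔ ∀ p ∈ vanishingIdeal ℂ S, eval x p = 0 := by
  unfold Cl
  rw [mem_zeroLocus_iff]
  exact Iff.rfl

theorem subset_Cl (S : Set (κ → ℂ)) : S ⊆ Cl S := by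
  intro x hx
  rw [mem_Cl]
  intro p hp
  exact mem_vI.1 hp x hx

theorem vI_Cl (S : Set (κ → ℂ)) : vanishingIdeal ℂ (Cl S) = vanishingIdeal ℂ S := by
  refine le_antisymm ?_ ?_
  · intro p hp
    rw [mem_vI] at hp ⊢
    exact fun x hx => hp x (subset_Cl S hx)
  · intro p hp
    rw [mem_vI]
    intro x hx
    exact mem_Cl.1 hx p hp

theorem zclosed_Cl (S : Set (κ → ℂ)) : ZClosed (Cl S) := by
  change zeroLocus ℂ (vanishingIdeal ℂ (Cl S)) = Cl S
  rw [vI_Cl]
  rfl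

theorem Cl_subset {S T : Set (κ → ℂ)} (hT : ZClosed T) (h : S ⊆ T) : Cl S ⊆ T := by
  intro x hx
  rw [← hT]
  rw [mem_zeroLocus_iff]
  intro p hp
  exact mem_Cl.1 hx p (mem_vI.2 fun y hy => mem_vI.1 hp y (h hy))

theorem Cl_mono {S T : Set (κ → ℂ)} (h : S ⊆ T) : Cl S ⊆ Cl T :=
  Cl_subset (zclosed_Cl T) (h.trans (subset_Cl T))

/-- The closure of a set is stable under every polynomial map under which the set is stable. -/
theorem Cl_map {κ' : Type} {S : Set (κ → ℂ)} {T : Set (κ' → ℂ)} (f : κ' → MvPolynomial κ ℂ)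
    (h : ∀ x ∈ S, ev f x ∈ T) {x : κ → ℂ} (hx : x ∈ Cl S) : ev f x ∈ Cl T := by
  rw [mem_Cl]
  intro p hp
  have h1 : aeval f p ∈ vanishingIdeal ℂ S := by
    rw [mem_vI]
    intro y hy
    rw [eval_aeval]
    exact mem_vI.1 hp _ (h y hy)
  have h2 := mem_Cl.1 hx _ h1
  rw [eval_aeval] at h2
  exact h2

theorem Cl_map_linear [Fintype κ] {κ' : Type} {S : Set (κ → ℂ)} {T : Set (κ' → ℂ)}
    (L : (κ → ℂ) →ₗ[ℂ] (κ' → ℂ)) (h : ∀ x ∈ S, L x ∈ T) {x : κ → ℂ} (hx : x ∈ Cl S) :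
    L x ∈ Cl T := by
  have h1 := Cl_map (S := S) (T := T)
    (fun i => linp ((LinearMap.proj i).comp L : (κ → ℂ) →ₗ[ℂ] ℂ)) (fun y hy => by
      rw [ev_linp]; exact h y hy) hx
  rw [ev_linp] at h1
  exact h1

theorem Cl_cone {S : Set (κ → ℂ)} (hc : ∀ a : ℂ, ∀ x ∈ S, a • x ∈ S) :
    ∀ a : ℂ, ∀ x ∈ Cl S, a • x ∈ Cl S := by
  intro a x hx
  have h1 := Cl_map (S := S) (T := S) (fun i => C a * X i) (fun y hy => by
    have : ev (fun i => (C a * X i : MvPolynomial κ ℂ)) y = a • y := by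
      funext i
      simp [ev]
    rw [this]
    exact hc a y hy) hx
  have : ev (fun i => (C a * X i : MvPolynomial κ ℂ)) x = a • x := by
    funext i
    simp [ev]
  rw [this] at h1
  exact h1

end Closure

section Psi

variable {κα κβ : Type}

@[simp] theorem pl_elim (p : κα → ℂ) (q : κβ → ℂ) : pl (Sum.elim p q) = p := rfl

@[simp] theorem qr_elim (p : κα → ℂ) (q : κβ → ℂ) : qr (Sum.elim p q) = q := rfl

theorem elim_pl_qr (y : κα ⊕ κβ → ℂ) : Sum.elim (pl y) (qr y) = y := by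
  funext i
  cases i <;> rfl

@[simp] theorem pl_sg (y : κα ⊕ κβ → ℂ) : pl (sg y) = pl y := rfl

@[simp] theorem qr_sg (y : κα ⊕ κβ → ℂ) : qr (sg y) = -(qr y) := rfl

theorem sg_sg (y : κα ⊕ κβ → ℂ) : sg (sg y) = y := by
  conv_rhs => rw [← elim_pl_qr y]
  unfold sg
  rw [pl_elim, qr_elim, neg_neg]

theorem elim_smul (a : ℂ) (p : κα → ℂ) (q : κβ → ℂ) :
    Sum.elim (a • p) (a • q) = a • Sum.elim p q := by
  funext i
  cases i <;> rfl

theorem ev_Psi (y : κα ⊕ κβ → ℂ) : ev Psi y = Theta (pl y) (qr y) 1 1 := by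
  funext i
  rcases i with a | b
  · simp [ev, Psi, Theta, pl, qr]
  · simp [ev, Psi, Theta, pl, qr]

theorem ev_Psi_elim (p : κα → ℂ) (q : κβ → ℂ) : ev Psi (Sum.elim p q) = Theta p q 1 1 :=
  ev_Psi _

theorem Theta_smul_left (a : ℂ) (p : κα → ℂ) (q : κβ → ℂ) (b c : ℂ) :
    Theta (a • p) q b c = Theta p q (a * b) (a ^ 3 * c) := by
  funext i
  rcases i with i | i <;> simp only [Theta, Sum.elim_inl, Sum.elim_inr, Pi.smul_apply,
    smul_eq_mul] <;> ring

theorem Theta_smul_right (a : ℂ) (p : κα → ℂ) (q : κβ → ℂ) (b c : ℂ) :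
    Theta p (a • q) b c = Theta p q (a ^ 3 * b) (a * c) := by
  funext i
  rcases i with i | i <;> simp only [Theta, Sum.elim_inl, Sum.elim_inr, Pi.smul_apply,
    smul_eq_mul] <;> ring

theorem smul_Theta (a : ℂ) (p : κα → ℂ) (q : κβ → ℂ) (b c : ℂ) :
    a • Theta p q b c = Theta p q (a * b) (a * c) := by
  funext i
  rcases i with i | i <;> simp only [Theta, Sum.elim_inl, Sum.elim_inr, Pi.smul_apply,
    smul_eq_mul] <;> ring

theorem ev_Psi_smul (a : ℂ) (y : κα ⊕ κβ → ℂ) : ev Psi (a • y) = a ^ 4 • ev Psi y := by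
  rw [ev_Psi, ev_Psi, smul_Theta]
  have h1 : pl (a • y) = a • pl y := rfl
  have h2 : qr (a • y) = a • qr y := rfl
  rw [h1, h2, Theta_smul_left, Theta_smul_right]
  congr 1 <;> ring

/-- The vector `Theta p q (y²) (x²)` in terms of `Psi`. -/
theorem Theta_sq (p : κα → ℂ) (q : κβ → ℂ) (x y : ℂ) :
    (x * y) • Theta p q (y ^ 2) (x ^ 2) = ev Psi (Sum.elim (x • p) (y • q)) := by
  rw [ev_Psi_elim, smul_Theta, Theta_smul_left, Theta_smul_right]
  congr 1 <;> ring

variable [Fintype κα] [Fintype κβ]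

theorem hasDerivAt_Theta (G : MvPolynomial (KK κα κβ) ℂ) (p : κα → ℂ) (q : κβ → ℂ) (b c : ℂ)
    (p' : κα → ℂ) (q' : κβ → ℂ) (b' c' : ℂ) :
    HasDerivAt (fun τ : ℂ => eval (Theta (p + τ • p') (q + τ • q') (b + τ * b') (c + τ * c')) G)
      (dpol G (Theta p q b c) (DTh p q b c p' q' b' c')) 0 := by
  have hp : ∀ i, HasDerivAt (fun τ : ℂ => (p + τ • p') i) (p' i) 0 := by
    intro i
    have h := ((hasDerivAt_id (0 : ℂ)).mul_const (p' i)).const_add (p i)
    simpa using h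
  have hq : ∀ i, HasDerivAt (fun τ : ℂ => (q + τ • q') i) (q' i) 0 := by
    intro i
    have h := ((hasDerivAt_id (0 : ℂ)).mul_const (q' i)).const_add (q i)
    simpa using h
  have hb : HasDerivAt (fun τ : ℂ => b + τ * b') b' 0 := by
    have h := ((hasDerivAt_id (0 : ℂ)).mul_const b').const_add b
    simpa using h
  have hc : HasDerivAt (fun τ : ℂ => c + τ * c') c' 0 := by
    have h := ((hasDerivAt_id (0 : ℂ)).mul_const c').const_add c
    simpa using h
  have h0 : Theta p q b c =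
      Theta (p + (0 : ℂ) • p') (q + (0 : ℂ) • q') (b + 0 * b') (c + 0 * c') := by
    simp
  rw [h0]
  refine hasDerivAt_eval G (γ := fun τ : ℂ =>
    Theta (p + τ • p') (q + τ • q') (b + τ * b') (c + τ * c')) ?_
  rintro (a | a)
  · have h := (hc.mul (((hp (a.1 0)).mul (hp (a.1 1))).mul (hp (a.1 2)))).mul (hq a.2)
    refine HasDerivAt.congr_deriv h ?_
    simp only [DTh, Sum.elim_inl, zero_smul, add_zero, zero_mul, Pi.mul_apply]
    ring
  · have h := (hb.mul (hp a.1)).mul (((hq (a.2 0)).mul (hq (a.2 1))).mul (hq (a.2 2)))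
    refine HasDerivAt.congr_deriv h ?_
    simp only [DTh, Sum.elim_inr, zero_smul, add_zero, zero_mul, Pi.mul_apply]
    ring

theorem dev_Psi (y v : κα ⊕ κβ → ℂ) :
    dev Psi y v = DTh (pl y) (qr y) 1 1 (pl v) (qr v) 0 0 := by
  funext i
  have h1 := hasDerivAt_Theta (X i) (pl y) (qr y) 1 1 (pl v) (qr v) 0 0
  have h2 : dpol (X i) (Theta (pl y) (qr y) 1 1) (DTh (pl y) (qr y) 1 1 (pl v) (qr v) 0 0) =
      DTh (pl y) (qr y) 1 1 (pl v) (qr v) 0 0 i := by
    classical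
    unfold dpol
    rw [Finset.sum_eq_single i]
    · simp
    · intro j _ hj
      rw [pderiv_X_of_ne (Ne.symm hj)]
      simp
    · intro h
      exact absurd (Finset.mem_univ i) h
  rw [h2] at h1
  have h3 : HasDerivAt (fun τ : ℂ => eval (y + τ • v) (Psi i)) (dpol (Psi i) y v) 0 := by
    have h := hasDerivAt_eval (Psi i) (γ := fun τ : ℂ => y + τ • v) (γ' := v) (τ := 0) (by
      intro j
      have h := ((hasDerivAt_id (0 : ℂ)).mul_const (v j)).const_add (y j)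
      simpa using h)
    simpa using h
  refine h3.unique ?_
  refine h1.congr_of_eventuallyEq (Filter.Eventually.of_forall fun τ => ?_)
  have h4 : eval (y + τ • v) (Psi i) = ev Psi (y + τ • v) i := rfl
  have e1 : pl (y + τ • v) = pl y + τ • pl v := rfl
  have e2 : qr (y + τ • v) = qr y + τ • qr v := rfl
  change eval (y + τ • v) (Psi i) =
    eval (Theta (pl y + τ • pl v) (qr y + τ • qr v) (1 + τ * 0) (1 + τ * 0)) (X i)
  rw [h4, ev_Psi, eval_X, e1, e2, mul_zero, add_zero]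

end Psi

end Pool.Agent.Helper87.TC
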