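import Pool.Agent.Helper87.TC.VTS2

/-!
Module AX of `MP_39dd1a_ag` (hand-in `TwoComponents`): general points of the resolved quotient.
-/

set_option autoImplicit false

namespace Pool.Agent.Helper87.TC

open MvPolynomial Pool.Agent.Helper48.VMRT Pool.Agent.Helper87.VM

/-- The points of the blow-up over the hyperplane at infinity. -/
def ax_S0 (D : VD) : Set (Option (Fin D.w) × D.ν → ℂ) := {y | y ∈ D.Y ∧ ∀ j, y (none, j) = 0}

/-- The points of the blow-up over a cone `A`. -/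
def ax_S1 (D : VD) (A : Set (Fin D.w → ℂ)) : Set (Option (Fin D.w) × D.ν → ℂ) :=
  {y | y ∈ D.Y ∧ ∀ j, (fun i => y (some i, j)) ∈ A}

theorem ax_S0_closed {D : VD} (hD : D.Good) : ZClosed (ax_S0 D) := by
  have h1 : ax_S0 D = D.Y ∩ {y | ∀ j, y (none, j) = 0} := rfl
  rw [h1]
  refine zclosed_inter hD.Ypm.closed (zclosed_of_eqs (Set.range fun j => X (none, j)) ?_)
  intro y
  constructor
  · rintro h _ ⟨j, rfl⟩
    rw [eval_X]
    exact h j
  · intro h j
    have := h _ ⟨j, rfl⟩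
    rwa [eval_X] at this

theorem ax_S1_closed {D : VD} (hD : D.Good) {A : Set (Fin D.w → ℂ)} (hA : ZClosed A) :
    ZClosed (ax_S1 D A) := by
  have h1 : ax_S1 D A = D.Y ∩ ⋂ j : D.ν, {y | ev (fun i => X (some i, j)) y ∈ A} := by
    ext y
    change (y ∈ D.Y ∧ ∀ j, (fun i => y (some i, j)) ∈ A) ↔
      y ∈ D.Y ∧ y ∈ ⋂ j : D.ν, {y | ev (fun i => X (some i, j)) y ∈ A}
    rw [Set.mem_iInter]
    have h2 : ∀ j, ev (fun i => X (some i, j)) y = fun i => y (some i, j) := by
      intro j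
      funext i
      exact eval_X _
    constructor
    · rintro ⟨h, h'⟩
      refine ⟨h, fun j => ?_⟩
      change ev (fun i => X (some i, j)) y ∈ A
      rw [h2]
      exact h' j
    · rintro ⟨h, h'⟩
      refine ⟨h, fun j => ?_⟩
      have h3 : ev (fun i => X (some i, j)) y ∈ A := h' j
      rwa [h2] at h3
  rw [h1]
  exact zclosed_inter hD.Ypm.closed (zclosed_iInter fun j => zclosed_preimage hA _)

theorem ax_S0_act {D : VD} (hD : D.Good) (g : D.G) : ∀ y ∈ ax_S0 D, D.ρY g y ∈ ax_S0 D := by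
  rintro y ⟨hy, h0⟩
  refine ⟨hD.Yact g y hy, ?_⟩
  obtain ⟨x, η, rfl, -⟩ := hy
  intro j
  unfold VD.ρY
  rw [tens_seg, seg_apply, oext_none]
  by_cases hx : x none = 0
  · rw [hx, zero_mul]
  · have hη : η = 0 := by
      funext k
      exact (mul_eq_zero.1 (h0 k)).resolve_left hx
    rw [hη, map_zero, Pi.zero_apply, mul_zero]

theorem ax_S1_act {D : VD} (hD : D.Good) (g : D.G) {A : Set (Fin D.w → ℂ)}
    (hAc : ∀ a : ℂ, ∀ u ∈ A, a • u ∈ A) (hAg : ∀ u ∈ A, D.ρ g u ∈ A) :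
    ∀ y ∈ ax_S1 D A, D.ρY g y ∈ ax_S1 D A := by
  rintro y ⟨hy, h0⟩
  refine ⟨hD.Yact g y hy, ?_⟩
  obtain ⟨x, η, rfl, -⟩ := hy
  intro j
  have h1 : (fun i => D.ρY g (seg x η) (some i, j)) =
      D.ρν g η j • D.ρ g (fun i => x (some i)) := by
    funext i
    unfold VD.ρY
    rw [tens_seg, seg_apply, oext_some, Pi.smul_apply, smul_eq_mul, mul_comm]
  rw [h1]
  by_cases hη : η = 0
  · have h2 := h0 j
    rw [hη, map_zero, Pi.zero_apply, zero_smul]
    have h3 : (fun i => seg x η (some i, j)) = 0 := by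
      funext i
      rw [seg_apply, hη, Pi.zero_apply, mul_zero]
      rfl
    rwa [h3] at h2
  · obtain ⟨k, hk⟩ := Function.ne_iff.1 hη
    have hk' : η k ≠ 0 := hk
    have h2 := hAc (η k)⁻¹ _ (h0 k)
    have h3 : (η k)⁻¹ • (fun i => seg x η (some i, k)) = fun i => x (some i) := by
      funext i
      rw [Pi.smul_apply, seg_apply, smul_eq_mul]
      field_simp
    rw [h3] at h2
    exact hAc _ _ (hAg _ h2)

theorem st_AX : ST_AX := by
  intro D M g N E X DX ε hTR A hAcl hAc hAg hAex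
  have hD := hTR.td.good
  have hF : ∀ u : Fin D.w → ℂ, ev D.F (ov 1 u) ≠ 0 := by
    intro u h0
    have h1 := (hD.fd.zero (ov 1 u)).1 (fun j => congrFun h0 j)
    exact one_ne_zero h1.1
  obtain ⟨S0', h01, -, -, -, h02⟩ := hTR.res.sets (ax_S0 D) (ax_S0_closed hD)
    (fun a y hy => ⟨hD.Ypm.cone a y hy.1, fun j => by
      rw [Pi.smul_apply, hy.2 j, smul_zero]⟩) (fun y hy => hy.1) (ax_S0_act hD g)
  obtain ⟨S1', h11, -, -, -, h12⟩ := hTR.res.sets (ax_S1 D A) (ax_S1_closed hD hAcl)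
    (fun a y hy => ⟨hD.Ypm.cone a y hy.1, fun j => hAc a _ (hy.2 j)⟩) (fun y hy => hy.1)
    (ax_S1_act hD g hAc hAg)
  have hz : (0 : Fin (N + 1) → ℂ) ∈ DX := by
    have h1 := hTR.res.on 0 (Or.inl (map_zero _))
    have h2 := hTR.res.dcone 0 _ h1
    rwa [zero_smul] at h2
  refine ⟨DX ∪ (S0' ∪ S1'), zclosed_union hTR.res.dcl (zclosed_union h01 h11), ?_, ?_⟩
  · obtain ⟨u, hu0, hu⟩ : ∃ u : Fin D.w → ℂ, u ≠ 0 ∧ u ∉ A := by
      obtain ⟨u₀, hu₀⟩ := hAex
      by_cases h0 : u₀ = 0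
      · obtain ⟨i⟩ := hD.ine
        obtain ⟨z, -, hz0⟩ := hD.Zne i
        refine ⟨z, hz0, fun hz => hu₀ ?_⟩
        have := hAc 0 z hz
        rwa [zero_smul, ← h0] at this
      · exact ⟨u₀, h0, hu₀⟩
    have hnfx := vts2_nfx hTR.td hu0 (one_ne_zero : (1 : ℂ) ≠ 0)
    rw [one_smul] at hnfx
    have hyY : D.gr (ov 1 u) ∈ D.Y := D.gr_mem _
    have hvDX := hTR.res.off _ hyY hnfx
    refine ⟨ev E (D.gr (ov 1 u)), hTR.res.img _ hyY, ?_, ?_⟩
    · intro h0
      apply hvDX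
      rw [h0]
      exact hz
    · obtain ⟨j, hj⟩ := Function.ne_iff.1 (hF u)
      rintro (h | h | h)
      · exact hvDX h
      · have h3 := ((h02 _ hyY hnfx).1 h).2 j
        unfold VD.gr at h3
        rw [seg_apply, ov_none, one_mul] at h3
        exact hj h3
      · have h3 := ((h12 _ hyY hnfx).1 h).2 j
        apply hu
        have h4 := hAc (ev D.F (ov 1 u) j)⁻¹ _ h3
        have h5 : (ev D.F (ov 1 u) j)⁻¹ • (fun i => D.gr (ov 1 u) (some i, j)) = u := by
          funext i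
          unfold VD.gr
          rw [Pi.smul_apply, seg_apply, ov_some, smul_eq_mul]
          have hj' : ev D.F (ov 1 u) j ≠ 0 := hj
          field_simp
        rwa [h5] at h4
  · intro v hv hv0 hvA
    have hvDX : v ∉ DX := fun h => hvA (Or.inl h)
    obtain ⟨y, hy, hyfx, rfl⟩ := hTR.res.surj v hv hvDX
    have hy0 : y ∉ ax_S0 D := fun h => hvA (Or.inr (Or.inl ((h02 y hy hyfx).2 h)))
    have hy1 : y ∉ ax_S1 D A := fun h => hvA (Or.inr (Or.inr ((h12 y hy hyfx).2 h)))
    have hne : y ≠ 0 := by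
      rintro rfl
      exact hyfx (Or.inl (map_zero _))
    have h2 : ∃ j, y (none, j) ≠ 0 := by
      by_contra hn
      push Not at hn
      exact hy0 ⟨hy, hn⟩
    obtain ⟨j, hj⟩ := h2
    have hy' := hy
    obtain ⟨x, η, hxy, hs⟩ := hy'
    have hx : x none ≠ 0 := by
      intro h
      apply hj
      rw [hxy, seg_apply, h, zero_mul]
    have hFx : ev D.F x ≠ 0 := by
      intro h
      have h3 := (hD.fd.zero x).1 (fun j => congrFun h j)
      exact hx h3.1
    obtain ⟨c, hc⟩ := hs.eq_smul hFx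
    have h4 : x = x none • ov 1 ((x none)⁻¹ • fun i => x (some i)) := by
      rw [← ov_smul, mul_one, smul_smul, mul_inv_cancel₀ hx, one_smul, ov_eta]
    set u : Fin D.w → ℂ := (x none)⁻¹ • fun i => x (some i) with hu
    have h5 : y = (c * (x none) ^ (D.a + 1)) • D.gr (ov 1 u) := by
      have h6 : y = c • D.gr x := by
        rw [hxy, hc, seg_smul_right]
        rfl
      have h7 : D.gr x = (x none) ^ (D.a + 1) • D.gr (ov 1 u) := by
        rw [← VD.gr_smul D hD.fd.hom, ← h4]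
      rw [h6, h7, smul_smul]
    refine ⟨c * (x none) ^ (D.a + 1), u, ?_, ?_, by rw [← h5]⟩
    · intro h
      apply hne
      rw [h5, h, zero_smul]
    · intro huA
      apply hy1
      refine ⟨hy, fun k => ?_⟩
      have h6 : (fun i => y (some i, k)) =
          (c * (x none) ^ (D.a + 1) * ev D.F (ov 1 u) k) • u := by
        funext i
        conv_lhs => rw [h5]
        unfold VD.gr
        rw [Pi.smul_apply, seg_apply, ov_some, smul_eq_mul, Pi.smul_apply, smul_eq_mul]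
        ring
      rw [h6]
      exact hAc _ _ huA

end Pool.Agent.Helper87.TC
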