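import Pool.Agent.Helper87.TC.Lib

/-!
Module LINE of `MP_39dd1a_ag` (hand-in `TwoComponents`): lines in general position avoid the fixed
points of the involution.
-/

set_option autoImplicit false

namespace Pool.Agent.Helper87.TC

open MvPolynomial Pool.Agent.Helper48.VMRT Pool.Agent.Helper87.VM

/-- The point of the blow-up in the exceptional divisor, as a limit. -/
theorem line_lim (D : VD) {f : ℂ → Option (Fin D.w) × D.ν → ℂ} (hf : DifferentiableAt ℂ f 0)
    (x v : Option (Fin D.w) → ℂ) (hx : ev D.F x = 0)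
    (h : ∀ s : ℂ, s • f s = D.gr (x + s • v)) : f 0 = seg x (dev D.F x v) := by
  funext i
  have h1 : HasDerivAt (fun s : ℂ => s * f s i) (f 0 i) 0 := by
    have h2 : DifferentiableAt ℂ (fun s => f s i) 0 := differentiableAt_pi.1 hf i
    have h3 := (hasDerivAt_id' (0 : ℂ)).mul h2.hasDerivAt
    rw [one_mul, zero_mul, add_zero] at h3
    exact h3
  have h4 : HasDerivAt (fun s : ℂ => (x + s • v) i.1 * eval (x + s • v) (D.F i.2))
      (v i.1 * eval (x + (0 : ℂ) • v) (D.F i.2) +
        (x + (0 : ℂ) • v) i.1 * dpol (D.F i.2) (x + (0 : ℂ) • v) v) 0 :=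
    (hasDerivAt_line x v 0 i.1).mul (hasDerivAt_eval (D.F i.2) (γ := fun s : ℂ => x + s • v)
      (hasDerivAt_line x v 0))
  have h5 : (fun s : ℂ => s * f s i) =
      fun s : ℂ => (x + s • v) i.1 * eval (x + s • v) (D.F i.2) := by
    funext s
    exact congrFun (h s) i
  rw [h5] at h1
  have h6 := h1.unique h4
  have h7 : eval x (D.F i.2) = 0 := congrFun hx i.2
  rw [zero_smul, add_zero, h7, mul_zero, zero_add] at h6
  exact h6

theorem line_diff {κ : Type} [Fintype κ] (d : ℕ) (y : κ → Polynomial ℂ) (t : ℂ) :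
    DifferentiableAt ℂ (fun s => hevv d y s t) 0 := by
  rw [differentiableAt_pi]
  intro i
  unfold hevv hev
  fun_prop

/-- Membership in the tangent space of the model variety. -/
theorem line_mem_TT {w : ℕ} {ν : Type} (F : ν → MvPolynomial (Option (Fin w)) ℂ)
    (z v : Fin w → ℂ) : v ∈ TT F z ↔ ∀ j, dpol (F j) (ov 0 z) (ov 0 v) = 0 := by
  unfold TT
  rw [LinearMap.mem_ker, Matrix.mulVecLin_apply]
  constructor
  · intro h j
    have h1 := congrFun h j
    unfold dpol
    rw [Fintype.sum_option, ov_none, mul_zero, zero_add]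
    exact h1
  · intro h
    funext j
    have h1 := h j
    unfold dpol at h1
    rw [Fintype.sum_option, ov_none, mul_zero, zero_add] at h1
    exact h1

theorem line_smul_z {D : VD} (hD : D.Good) (a : ℂ) {z : Fin D.w → ℂ} (hz : z ∈ D.Z) :
    a • z ∈ D.Z := by
  obtain ⟨i, hi⟩ := Set.mem_iUnion.1 hz
  exact Set.mem_iUnion.2 ⟨i, hD.Zcone i a z hi⟩

theorem line_ev_zero {D : VD} (hD : D.Good) {z : Fin D.w → ℂ} (hz : z ∈ D.Z) :
    ev D.F (ov 0 z) = 0 := by
  funext j
  exact (hD.fd.zero (ov 0 z)).2 ⟨rfl, hz⟩ j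

/-- The tangent space of the model variety contains the point. -/
theorem line_self_TT {D : VD} (hD : D.Good) {z : Fin D.w → ℂ} (hz : z ∈ D.Z) (b : ℂ) :
    b • z ∈ TT D.F z := by
  refine Submodule.smul_mem _ _ ?_
  rw [line_mem_TT]
  intro j
  rw [euler (hD.fd.hom j)]
  have : eval (ov 0 z) (D.F j) = 0 := congrFun (line_ev_zero hD hz) j
  rw [this, mul_zero]

/-- The normal derivative of some equation does not vanish. -/
theorem line_normal {D : VD} (hD : D.Good) {z : Fin D.w → ℂ} (hz0 : z ≠ 0) :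
    ∃ j, dpol (D.F j) (ov 0 z) (ov 1 0) ≠ 0 := by
  by_contra hcon
  push Not at hcon
  obtain ⟨o, ho⟩ := Function.ne_iff.1 hz0
  have hm : HomE (D.a - 1) ((X (some o) : MvPolynomial (Option (Fin D.w)) ℂ) ^ (D.a - 1)) := by
    have := (homE_X (some o : Option (Fin D.w))).pow (D.a - 1)
    rwa [one_mul] at this
  have hsp := hD.fd.span _ hm
  rw [Submodule.mem_span_range_iff_exists_fun] at hsp
  obtain ⟨l, hl⟩ := hsp
  have h1 := congrArg (fun p => dpol p (ov 0 z) (ov 1 0)) hl
  simp only [dpol_sum, dpol_smul, hcon, mul_zero, Finset.sum_const_zero, dpol_mul, dpol_X,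
    ov_none, eval_X, zero_mul, zero_add, map_pow, ov_some, mul_one] at h1
  exact pow_ne_zero _ ho h1.symm

theorem st_LINE (hHTR0 : ST_HTR0) : ST_LINE := by
  intro D M g hTD u hu z hz hz0 y hy hgr s t hst hFX
  have hD := hTD.good
  set h := g ^ (2 ^ M) with hh
  have hH := (hHTR0 D hD h).1
  have hact : ∀ (c : ℂ) (v : Fin D.w → ℂ), oext D.ρ h (ov c v) = ov c (-v) := by
    intro c v
    rw [oext_ov, hTD.neg]
  have hFX' : ∃ e : ℂ, (e = 1 ∨ e = -1) ∧
      D.ρY h (hevv D.a y s t) = e • hevv D.a y s t := by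
    rcases hFX with h1 | h1
    · exact ⟨1, Or.inl rfl, by rw [h1, one_smul]⟩
    · exact ⟨-1, Or.inr rfl, by rw [h1, neg_one_smul]⟩
  obtain ⟨e, he, hfe⟩ := hFX'
  have hyne := hy.ne s t hst
  by_cases hs : s = 0
  · subst hs
    have ht : t ≠ 0 := by
      rintro rfl
      exact hst rfl
    set z' : Fin D.w → ℂ := t • z with hz'
    have hz'Z : z' ∈ D.Z := line_smul_z hD t hz
    have hz'0 : z' ≠ 0 := smul_ne_zero ht hz0
    -- the point
    have h1 : hevv D.a y 0 t = seg (ov 0 z') (dev D.F (ov 0 z') (ov 1 u)) := by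
      refine line_lim D (f := fun s => hevv D.a y s t) (line_diff D.a y t) _ _
        (line_ev_zero hD hz'Z) ?_
      intro s
      rw [hgr, hz', add_comm]
      congr 2
      rw [← ov_smul, mul_zero]
    -- its image
    have h2 : D.ρY h (hevv D.a y 0 t) = seg (ov 0 (-z')) (dev D.F (ov 0 (-z')) (ov 1 (-u))) := by
      have hd : DifferentiableAt ℂ (fun s => D.ρY h (hevv D.a y s t)) 0 :=
        (LinearMap.toContinuousLinearMap (D.ρY h)).differentiableAt.comp (0 : ℂ)
          (line_diff D.a y t)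
      refine line_lim D (f := fun s => D.ρY h (hevv D.a y s t)) hd _ _ ?_ ?_
      · refine line_ev_zero hD ?_
        have := line_smul_z hD (-1) hz'Z
        rwa [neg_one_smul] at this
      · intro s
        rw [← map_smul, hgr, ← hH, map_add, map_smul, map_smul, hact, hact, add_comm]
        congr 2
        rw [← ov_smul, mul_zero, hz', smul_neg]
    have hz'n : ov (0 : ℂ) (-z') = (-1 : ℂ) • ov 0 z' := by
      rw [← ov_smul, mul_zero, neg_one_smul]
    obtain ⟨a, ha⟩ : ∃ a, D.a = a + 1 := ⟨D.a - 1, by have := hD.fd.two_le; omega⟩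
    have h3 : dev D.F (ov 0 (-z')) (ov 1 (-u)) =
        ((-1 : ℂ) ^ a) • dev D.F (ov 0 z') (ov 1 (-u)) := by
      funext j
      have hj := hD.fd.hom j
      rw [ha] at hj
      rw [dev_apply, Pi.smul_apply, smul_eq_mul, dev_apply, hz'n, dpol_smul_point hj]
    have h4 : seg (ov 0 z') (((-1 : ℂ) ^ (a + 1)) • dev D.F (ov 0 z') (ov 1 (-u))) =
        seg (ov 0 z') (e • dev D.F (ov 0 z') (ov 1 u)) := by
      rw [seg_smul_right _ _ (dev D.F (ov 0 z') (ov 1 u)), ← h1, ← hfe, h2, h3, hz'n,
        seg_smul_smul, seg_smul_right]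
      congr 1
      ring
    have hne : ov (0 : ℂ) z' ≠ 0 := by
      intro h0
      apply hz'0
      funext i
      exact congrFun h0 (some i)
    obtain ⟨o, ho⟩ := Function.ne_iff.1 hne
    have h5 : ((-1 : ℂ) ^ (a + 1)) • dev D.F (ov 0 z') (ov 1 (-u)) =
        e • dev D.F (ov 0 z') (ov 1 u) := by
      funext j
      exact mul_left_cancel₀ ho (congrFun h4 (o, j))
    have hsq : ((-1 : ℂ) ^ (a + 1)) * ((-1 : ℂ) ^ (a + 1)) = 1 := by
      rw [← mul_pow]; norm_num
    set e' : ℂ := (-1 : ℂ) ^ (a + 1) * e with he'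
    have h6 : dev D.F (ov 0 z') (ov 1 (-u)) = e' • dev D.F (ov 0 z') (ov 1 u) := by
      have := congrArg (fun w => ((-1 : ℂ) ^ (a + 1)) • w) h5
      simp only [smul_smul] at this
      rw [hsq, one_smul] at this
      exact this
    have he'' : e' = 1 ∨ e' = -1 := by
      rcases neg_one_pow_eq_or ℂ (a + 1) with h7 | h7 <;> rcases he with h8 | h8 <;>
        rw [he', h7, h8] <;> norm_num
    have hsplit : ∀ (c : ℂ) (v : Fin D.w → ℂ) (j : D.ν), dpol (D.F j) (ov 0 z') (ov c v) =
        c * dpol (D.F j) (ov 0 z') (ov 1 0) + dpol (D.F j) (ov 0 z') (ov 0 v) := by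
      intro c v j
      have : ov c v = c • ov 1 (0 : Fin D.w → ℂ) + ov 0 v := by
        rw [← ov_smul, ← ov_add, mul_one, smul_zero, add_zero, zero_add]
      rw [this, dpol_add_right, dpol_smul_right]
    have hneg : ∀ j, dpol (D.F j) (ov 0 z') (ov 0 (-u)) =
        -dpol (D.F j) (ov 0 z') (ov 0 u) := by
      intro j
      have : ov (0 : ℂ) (-u) = (-1 : ℂ) • ov 0 u := by
        rw [← ov_smul, mul_zero, neg_one_smul]
      rw [this, dpol_smul_right, neg_one_mul]
    rcases he'' with h7 | h7
    · -- `u` is in the tangent space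
      apply hu z' hz'Z hz'0
      rw [line_mem_TT]
      intro j
      have h8 := congrFun h6 j
      rw [h7, one_smul, dev_apply, dev_apply, hsplit, hsplit 1 u, hneg] at h8
      have : (2 : ℂ) * dpol (D.F j) (ov 0 z') (ov 0 u) = 0 := by linear_combination -h8
      exact (mul_eq_zero.1 this).resolve_left two_ne_zero
    · obtain ⟨j, hj⟩ := line_normal hD hz'0
      apply hj
      have h8 := congrFun h6 j
      rw [h7, Pi.smul_apply, smul_eq_mul, dev_apply, dev_apply, hsplit, hsplit 1 u, hneg] at h8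
      have : (2 : ℂ) * dpol (D.F j) (ov 0 z') (ov 1 0) = 0 := by linear_combination h8
      exact (mul_eq_zero.1 this).resolve_left two_ne_zero
  · -- the affine part
    have hx : s • ov 1 u + t • ov 0 z = ov s (s • u + t • z) := by
      rw [← ov_smul, ← ov_smul, ← ov_add, mul_one, mul_zero, add_zero]
    have h1 : D.gr (ov s (-(s • u + t • z))) = e • D.gr (ov s (s • u + t • z)) := by
      rw [← hact, hH, ← hx, ← hgr, map_smul, hfe, smul_comm]
    have h2 : D.gr (ov s (s • u + t • z)) ≠ 0 := by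
      rw [← hx, ← hgr]
      exact smul_ne_zero hs hyne
    have he0 : e ≠ 0 := by
      rcases he with rfl | rfl
      · exact one_ne_zero
      · exact neg_ne_zero.2 one_ne_zero
    have h3 : seg (ov s (s • u + t • z)) (e • ev D.F (ov s (s • u + t • z))) =
        seg (ov s (-(s • u + t • z))) (ev D.F (ov s (-(s • u + t • z)))) := by
      rw [seg_smul_right]
      exact h1.symm
    obtain ⟨c, hc0, hc, -⟩ := seg_eq_seg h3 (by
      rw [seg_smul_right]
      exact smul_ne_zero he0 h2)
    have hc1 : c = 1 := by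
      have h4 := congrFun hc none
      rw [Pi.smul_apply, smul_eq_mul, ov_none, ov_none] at h4
      exact mul_right_cancel₀ hs (by rw [one_mul]; exact h4.symm)
    have h5 : -(s • u + t • z) = s • u + t • z := by
      funext i
      have h4 := congrFun hc (some i)
      rw [hc1, one_smul] at h4
      exact h4
    have h6 : s • u + t • z = 0 := by
      have h7 : (2 : ℂ) • (s • u + t • z) = 0 := by
        rw [two_smul]
        nth_rewrite 1 [← h5]
        exact neg_add_cancel _
      exact (smul_eq_zero.1 h7).resolve_left two_ne_zero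
    have h7 : u = (-(t / s)) • z := by
      have h8 : s • u = s • ((-(t / s)) • z) := by
        rw [smul_smul, mul_neg, mul_div_cancel₀ _ hs, neg_smul]
        exact eq_neg_of_add_eq_zero_left h6
      exact smul_right_injective _ hs h8
    apply hu z hz hz0
    rw [h7]
    exact line_self_TT hD hz _

end Pool.Agent.Helper87.TC
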