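import Pool.Agent.Helper87.TC.Lib

/-!
Module HTR2 of `MP_39dd1a_ag` (hand-in `TwoComponents`): the group acts on the data of a member of
the family.
-/

set_option autoImplicit false

namespace Pool.Agent.Helper87.TC

open MvPolynomial Pool.Agent.Helper48.VMRT Pool.Agent.Helper87.VM

theorem htr2_smul {κ μ : Type} {E : μ → MvPolynomial κ ℂ} {m : ℕ} (h : ∀ i, HomE m (E i))
    (a : ℂ) (y : κ → ℂ) : ev E (a • y) = a ^ m • ev E y := by
  funext i
  exact h i a y

/-- A multiple of the data of a line. -/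
theorem htr2_lp {D : VD} (hD : D.Good) {p q : Option (Fin D.w) → ℂ} (h : LP D p q) {lam : ℂ}
    (hl : lam ≠ 0) : LP D (lam • p) (lam • q) := by
  refine ⟨?_, ?_, ?_⟩
  · rw [LinearIndependent.pair_iff]
    intro s t hst
    have h1 : (s * lam) • p + (t * lam) • q = 0 := by
      rw [← hst, smul_smul, smul_smul]
    have h2 := LinearIndependent.pair_iff.1 h.ind _ _ h1
    exact ⟨(mul_eq_zero.1 h2.1).resolve_right hl, (mul_eq_zero.1 h2.2).resolve_right hl⟩
  · rcases h.ne with h1 | h1
    · left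
      exact mul_ne_zero hl h1
    · right
      exact mul_ne_zero hl h1
  · have h1 : (fun i => (lam • q) none * (lam • p) (some i) -
        (lam • p) none * (lam • q) (some i)) =
        (lam * lam) • fun i => q none * p (some i) - p none * q (some i) := by
      funext i
      simp only [Pi.smul_apply, smul_eq_mul]
      ring
    rw [h1]
    obtain ⟨i, hi⟩ := Set.mem_iUnion.1 h.mem
    exact Set.mem_iUnion.2 ⟨i, hD.Zcone i _ _ hi⟩

theorem st_HTR2 (hHTR0 : ST_HTR0) : ST_HTR2 := by
  intro D M g N E X DX ε hTR h p q hp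
  have hD := hTR.td.good
  obtain ⟨i, rfl⟩ := hTR.td.gen h
  have hE : ∀ (i : ℕ) (y), ev E (D.ρY (g ^ i) y) = ε ^ i • ev E y := by
    intro i
    induction i with
    | zero =>
      intro y
      rw [pow_zero, map_one, pow_zero, one_smul]
      rfl
    | succ i ih =>
      intro y
      rw [pow_succ, map_mul, Module.End.mul_apply, ih, hTR.res.equi]
      change ε ^ i • ε • ev E y = _
      rw [smul_smul, pow_succ]
  have ha : D.a * 4 ^ (M + 1) ≠ 0 := by
    refine Nat.mul_ne_zero ?_ (pow_ne_zero _ (by norm_num))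
    have := hD.fd.two_le
    omega
  obtain ⟨lam, hlam⟩ := IsAlgClosed.exists_pow_nat_eq ((ε ^ i)⁻¹) (Nat.pos_of_ne_zero ha)
  have hεi : ε ^ i ≠ 0 := pow_ne_zero _ hTR.eps
  have hlam0 : lam ≠ 0 := by
    rintro rfl
    rw [zero_pow ha] at hlam
    exact inv_ne_zero hεi hlam.symm
  refine ⟨lam, hlam0, htr2_lp hD ((hHTR0 D hD (g ^ i)).2 p q hp) hlam0, ?_⟩
  intro c hc s t
  have h1 : s • (lam • oext D.ρ (g ^ i) p) + t • (lam • oext D.ρ (g ^ i) q) =
      lam • oext D.ρ (g ^ i) (s • p + t • q) := by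
    rw [map_add, map_smul, map_smul, smul_add, smul_comm s lam, smul_comm t lam]
  have h2 : s * (lam • oext D.ρ (g ^ i) p) none + t * (lam • oext D.ρ (g ^ i) q) none =
      lam * (s * p none + t * q none) := by
    simp only [Pi.smul_apply, smul_eq_mul, oext_none]
    ring
  rw [h1, h2, VD.gr_smul D hD.fd.hom, (hHTR0 D hD (g ^ i)).1, htr2_smul hTR.res.hom, hE,
    mul_pow, mul_smul, hc, smul_smul]
  congr 1
  have h3 : (lam ^ (D.a + 1)) ^ 4 ^ (M + 1) = lam ^ (D.a * 4 ^ (M + 1)) * lam ^ 4 ^ (M + 1) := by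
    rw [← pow_mul, ← pow_add]
    congr 1
    ring
  rw [h3, hlam]
  field_simp

end Pool.Agent.Helper87.TC
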