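import Pool.Agent.Helper87.TC.Lib

/-!
Assembly of the existence theorem for a model variety which may span the projective space,
standard form.
-/

set_option autoImplicit false

namespace Pool.Agent.Helper87.TC

open MvPolynomial Pool.Agent.Helper48.VMRT Pool.Agent.Helper87.VM

theorem main2_ext {N d e : ℕ} (c : Coef N d) (c' : Coef N e) (α β γ δ : ℂ)
    (h0 : α ≠ 0 ∨ β ≠ 0) (h : ∀ s t : ℂ, α * s + β * t ≠ 0 →
      pt c s t = pt c' (α * s + β * t) (γ * s + δ * t)) (s t : ℂ) :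
    pt c s t = pt c' (α * s + β * t) (γ * s + δ * t) := by
  by_cases hst : α * s + β * t = 0
  swap
  · exact h s t hst
  obtain ⟨s₁, t₁, h1⟩ : ∃ s₁ t₁ : ℂ, α * s₁ + β * t₁ = 1 := by
    rcases h0 with h0 | h0
    · exact ⟨α⁻¹, 0, by rw [mul_inv_cancel₀ h0]; ring⟩
    · exact ⟨0, β⁻¹, by rw [mul_inv_cancel₀ h0]; ring⟩
  funext i
  have hc1 : Continuous fun τ : ℂ => pt c (s + τ * s₁) (t + τ * t₁) i := by
    unfold pt
    fun_prop
  have hc2 : Continuous fun τ : ℂ => pt c' (α * (s + τ * s₁) + β * (t + τ * t₁))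
      (γ * (s + τ * s₁) + δ * (t + τ * t₁)) i := by
    unfold pt
    fun_prop
  have hd : Dense ({0}ᶜ : Set ℂ) := dense_compl_singleton 0
  have h2 := Continuous.ext_on hd hc1 hc2 (by
    intro τ hτ
    have h3 : α * (s + τ * s₁) + β * (t + τ * t₁) ≠ 0 := by
      have : α * (s + τ * s₁) + β * (t + τ * t₁) = τ := by
        linear_combination hst + τ * h1
      rw [this]
      exact hτ
    exact congrFun (h _ _ h3) i)
  have h4 := congrFun h2 0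
  simpa only [zero_mul, add_zero] using h4

theorem st_MAIN2 (hGENP : ST_GENP) (hTREX : ST_TREX) (hHCUR2 : ST_HCUR2) (hHIRR2 : ST_HIRR2)
    (hHLC2 : ST_HLC2) (hTHR2 : ST_THR2) (hAX : ST_AX) (hUNI2 : ST_UNI2) (hISO2 : ST_ISO2) :
    ST_MAIN2 := by
  intro D M g hTD hij
  obtain ⟨A, hAcl, hAcone, hAact, ⟨u₀, hu₀⟩, hA⟩ := hGENP D M g hTD hij
  obtain ⟨N, E, X, DX, ε, hTR⟩ := hTREX D M g hTD
  obtain ⟨A', hA'cl, hA'ex, hA'⟩ := hAX D M g N E X DX ε hTR A hAcl hAcone hAact ⟨u₀, hu₀⟩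
  have hD := hTD.good
  obtain ⟨z₁, hz₁, hz₁0⟩ : ∃ z ∈ D.Z, z ≠ 0 := by
    obtain ⟨i⟩ := hD.ine
    obtain ⟨z, hz, hz0⟩ := hD.Zne i
    exact ⟨z, Set.mem_iUnion.2 ⟨i, hz⟩, hz0⟩
  have hne : ∀ u, u ∉ A → u ≠ 0 := by
    intro u hu h0
    refine (hA u hu).tan z₁ hz₁ hz₁0 ?_
    rw [h0]
    exact Submodule.zero_mem _
  refine ⟨N, 4 ^ (M + 1) * D.a, X, H2 D M N E DX, ?_, ?_, ?_, A', hA'cl, hA'ex, ?_⟩
  · exact
      { closed := hTR.res.pm.closed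
        cone := hTR.res.pm.cone
        irred := hTR.res.pm.irred
        exists_ne := hTR.res.pm.exists_ne
        smooth := hTR.res.pm.smooth }
  · exact
      { curve := hHCUR2 D M g N E X DX ε hTR
        irred := hHIRR2 D M g N E X DX ε hTR ⟨u₀, (hA u₀ hu₀).tan⟩
        locallyClosed := (hHLC2 D M g N E X DX ε hTR).1 }
  · refine ⟨(hHLC2 D M g N E X DX ε hTR).2, A', hA'cl, hA'ex, ?_⟩
    intro v hv hv0 hvA
    obtain ⟨c₀, u, hc₀, hu, rfl⟩ := hA' v hv hv0 hvA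
    have hG := hA u hu
    obtain ⟨Φ, hΦ⟩ := hTHR2 D M g N E X DX ε hTR u hG.tan c₀ hc₀
    refine ⟨D.w, D.Z, Φ, hD.ZZcl, ?_, ⟨z₁, hz₁, hz₁0⟩, ?_, ?_⟩
    · intro a z hz
      obtain ⟨i, hi⟩ := Set.mem_iUnion.1 hz
      exact Set.mem_iUnion.2 ⟨i, hD.Zcone i a z hi⟩
    · intro z hz hz0
      exact ⟨(hΦ z hz).2.2.2 hz0, (hΦ z hz).2.1, (hΦ z hz).2.2.1⟩
    · intro c hc s₀ t₀ hst hct
      obtain ⟨z, hz, hz0, α, β, γ, δ, hdet, h1, h2, h3⟩ :=
        hUNI2 D M g N E X DX ε hTR u c₀ hc₀ (hne u hu) c hc s₀ t₀ hst hct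
      refine ⟨z, hz, hz0, α, β, γ, δ, hdet, ?_⟩
      have hαβ : α ≠ 0 ∨ β ≠ 0 := by
        by_contra hcon
        push Not at hcon
        rw [hcon.1, hcon.2] at h1
        norm_num at h1
      refine main2_ext c _ α β γ δ hαβ ?_
      intro s t hl
      have h4 := h3 s t
      rw [← (hΦ z hz).1] at h4
      have h5 : (α * s + β * t) ^ 4 ^ (M + 1) ≠ 0 := pow_ne_zero _ hl
      exact smul_right_injective _ h5 h4
  · intro v hv hv0 hvA
    obtain ⟨c₀, u, hc₀, hu, rfl⟩ := hA' v hv hv0 hvA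
    exact hISO2 D M g N E X DX ε hTR u (hA u hu) c₀ hc₀

end Pool.Agent.Helper87.TC
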