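import Pool.Agent.Helper87.TC.Stmts2
import Pool.Agent.Helper87.VM.Lib

/-!
The components of a nonsingular projective variety are disjoint.
-/

set_option autoImplicit false

namespace Pool.Agent.Helper87.TC

open MvPolynomial Pool.Agent.Helper48.VMRT Pool.Agent.Helper87.VM

theorem st_DISJ (hLDOM : ST_LDOM) : ST_DISJ := by
  classical
  intro n ι _ Z hZ hsm i j hij z hz
  by_contra hz0
  have hz0' : z ≠ 0 := fun h => hz0 (by rw [h]; exact Set.mem_singleton _)
  obtain ⟨c, F, hFI, hlin, h, hhz, hh⟩ := hsm z (Set.mem_iUnion.2 ⟨i, hz.1⟩) hz0'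
  have hFz : ∀ k, eval z (F k) = 0 := fun k =>
    mem_vI.1 (hFI k) z (Set.mem_iUnion.2 ⟨i, hz.1⟩)
  have hspan : ∀ p ∈ Ideal.span (Set.range F), ∀ k, ∀ x ∈ Z k, eval x p = 0 := by
    intro p hp k x hx
    have h1 : Ideal.span (Set.range F) ≤ vanishingIdeal ℂ (⋃ i, Z i) := by
      rw [Ideal.span_le]
      rintro _ ⟨l, rfl⟩
      exact hFI l
    exact mem_vI.1 (h1 hp) x (Set.mem_iUnion.2 ⟨k, hx⟩)
  have := Fintype.ofFinite ι
  -- an equation of the other components
  have hex : ∀ k, k ≠ i → ∃ g : MvPolynomial (Fin n) ℂ, (∀ x ∈ Z k, eval x g = 0) ∧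
      g ∉ vanishingIdeal ℂ (Z i) := by
    intro k hk
    by_contra hcon
    push Not at hcon
    apply hk
    refine (hZ.irredundant i k ?_).symm
    intro x hx
    refine zclosed_iff.1 (hZ.closed k) x fun p hp => ?_
    exact mem_vI.1 (hcon p (fun y hy => mem_vI.1 hp y hy)) x hx
  choose! G hG1 hG2 using hex
  set g : MvPolynomial (Fin n) ℂ := ∏ k ∈ Finset.univ.erase i, G k with hg
  have hgk : ∀ k, k ≠ i → ∀ x ∈ Z k, eval x g = 0 := by
    intro k hk x hx
    rw [hg, map_prod]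
    exact Finset.prod_eq_zero (Finset.mem_erase.2 ⟨hk, Finset.mem_univ k⟩) (hG1 k hk x hx)
  have hgi : g ∉ vanishingIdeal ℂ (Z i) := by
    intro hcon
    rw [hg] at hcon
    have := hZ.irred i
    obtain ⟨k, hk, hk'⟩ := (Ideal.IsPrime.prod_mem_iff (p := vanishingIdeal ℂ (Z i))).1 hcon
    exact hG2 k (Finset.ne_of_mem_erase hk) hk'
  -- `Z j` is contained in `Z i`
  apply hij
  refine (hZ.irredundant j i ?_).symm
  intro x hx
  refine zclosed_iff.1 (hZ.closed i) x fun f hf => ?_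
  have hfg : f * g ∈ vanishingIdeal ℂ (⋃ i, Z i) := by
    rw [mem_vI]
    intro y hy
    obtain ⟨k, hk⟩ := Set.mem_iUnion.1 hy
    rw [map_mul]
    by_cases hki : k = i
    · subst hki
      rw [mem_vI.1 hf y hk, zero_mul]
    · rw [hgk k hki y hk, mul_zero]
  rcases hLDOM n c F z hFz hlin f g h hhz (hh _ hfg) with ⟨h', h1, h2⟩ | ⟨h', h1, h2⟩
  · have h3 : h' * f ∈ vanishingIdeal ℂ (Z j) := by
      rw [mem_vI]
      exact fun y hy => hspan _ h2 j y hy
    rcases (hZ.irred j).mem_or_mem h3 with h4 | h4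
    · exact absurd (mem_vI.1 h4 z hz.2) h1
    · exact mem_vI.1 h4 x hx
  · exfalso
    have h3 : h' * g ∈ vanishingIdeal ℂ (Z i) := by
      rw [mem_vI]
      exact fun y hy => hspan _ h2 i y hy
    rcases (hZ.irred i).mem_or_mem h3 with h4 | h4
    · exact absurd (mem_vI.1 h4 z hz.1) h1
    · exact hgi h4

end Pool.Agent.Helper87.TC
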