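import Pool.Agent.Helper87.TC.Lib

/-!
The existence theorem for a nonsingular model variety with `2 ^ k` components permuted cyclically
by a linear automorphism.
-/

set_option autoImplicit false

namespace Pool.Agent.Helper87.TC

open MvPolynomial Pool.Agent.Helper48.VMRT Pool.Agent.Helper87.VM

/-- The data of the construction. -/
theorem final2_data (hCEX : ST_CEX) (hFDEX : ST_FDEX) (hYPM : ST_YPM) (hYACT : ST_YACT)
    (hXEX : ST_XEX) (w : ℕ) (ι : Type) [Finite ι] [hι : Nonempty ι] (Zi : ι → Set (Fin w → ℂ))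
    (G : Type) [Group G] [Fintype G] (ρ : G →* ((Fin w → ℂ) →ₗ[ℂ] (Fin w → ℂ)))
    (hcl : ∀ i, ZClosed (Zi i)) (hcone : ∀ i, ∀ a : ℂ, ∀ z ∈ Zi i, a • z ∈ Zi i)
    (hirr : ∀ i, (vanishingIdeal ℂ (Zi i)).IsPrime) (hne : ∀ i, ∃ z ∈ Zi i, z ≠ 0)
    (hsm : SmoothCone (⋃ i, Zi i)) (hact : ∀ g, ∀ z ∈ ⋃ i, Zi i, ρ g z ∈ ⋃ i, Zi i)
    (htr : ∀ i j, ∃ g, (fun z => ρ g z) '' Zi i = Zi j) (M : ℕ) (g : G)
    (hgen : ∀ h : G, ∃ i : ℕ, h = g ^ i) (hord : g ^ (2 ^ (M + 1)) = 1)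
    (hneg : ∀ x, ρ (g ^ (2 ^ M)) x = -x)
    (hMAIN2 : ST_MAIN2) (hij : ∃ i j : ι, ∀ z, z ∈ Zi i → z ∈ Zi j → z = 0) :
    ∃ (N d : ℕ) (X : Set (Fin (N + 1) → ℂ)) (H : Set (Coef N d)),
      IsProjManifold w N X ∧ IsFamily X H ∧ IsMinimalComponent X H ∧
        Isotrivial X H (⋃ i, Zi i) := by
  obtain ⟨κB, iB, dB, π, B, hB, hBf⟩ := hCEX G
  have hZcl : ZClosed (⋃ i, Zi i) := zclosed_iUnion hcl
  have hZcone : ∀ a : ℂ, ∀ z ∈ ⋃ i, Zi i, a • z ∈ ⋃ i, Zi i := by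
    intro a z hz
    obtain ⟨i, hi⟩ := Set.mem_iUnion.1 hz
    exact Set.mem_iUnion.2 ⟨i, hcone i a z hi⟩
  have hZne : (⋃ i, Zi i).Nonempty := by
    obtain ⟨i⟩ := hι
    obtain ⟨z, hz, _⟩ := hne i
    exact ⟨z, Set.mem_iUnion.2 ⟨i, hz⟩⟩
  obtain ⟨ν, iν, dν, a, F, ρν, hF⟩ := hFDEX G w (⋃ i, Zi i) ρ hZcl hZcone hZne hsm hact
  have hY := hYPM G ν w _ ρ a F ρν hF
  have hYa := hYACT G ν w _ ρ a F ρν hF
  have hG : 1 ≤ Fintype.card G := Fintype.card_pos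
  have hk : 1 ≤ 2 * Fintype.card G := by omega
  obtain ⟨N, E, hE⟩ := hXEX G κB (Option (Fin w) × ν) π B (tens (oext ρ) ρν) (Yc F) w
    (2 * Fintype.card G) (2 * Fintype.card G * a + 2) hB hBf hY hYa hk (by omega) (by omega)
  let D : VD :=
    { G := G, w := w, ι := ι, Zi := Zi, ρ := ρ, κB := κB, π := π, B := B, ν := ν, a := a,
      F := F, ρν := ρν, N := N, k := 2 * Fintype.card G, t := 2 * Fintype.card G * a + 2,
      E := E }
  have hD : D.Good :=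
    { ine := hι
      Zcl := hcl
      ZZcl := hZcl
      Zcone := hcone
      Zirr := hirr
      Zne := hne
      Zact := hact
      trans := htr
      Bpm := hB
      Bfree := hBf
      fd := hF
      Ypm := hY
      Yact := hYa
      kpos := hk
      kG := by
        change 2 * Fintype.card G ≤ 2 * Fintype.card G + 1
        omega
      tbig := by
        change 2 * Fintype.card G * a + 1 < 2 * Fintype.card G * a + 2
        omega
      xd := hE }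
  have hTD : TD D M g :=
    { good := hD
      fin := inferInstanceAs (Finite ι)
      gen := hgen
      ord := hord
      neg := hneg }
  exact hMAIN2 D M g hTD hij

theorem st_FINAL2 (hGEN0 : ST_GEN0) (hMAIN2 : ST_MAIN2) (hCEX : ST_CEX) (hFDEX : ST_FDEX)
    (hYPM : ST_YPM) (hYACT : ST_YACT) (hXEX : ST_XEX) : ST_FINAL2 := by
  classical
  intro n k ι _ Z hZ hsm hdis hk hcard a ha htr
  obtain ⟨M, γ, hγZ, hneg, htrγ⟩ := hGEN0 n k ι Z hZ hcard a ha htr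
  have hι : Nonempty ι := by
    have h0 : Nat.card ι ≠ 0 := by
      rw [hcard]; exact pow_ne_zero _ two_ne_zero
    exact (Nat.card_ne_zero.1 h0).1
  have hγ1 : γ ^ (2 ^ (M + 1)) = 1 := by
    refine LinearEquiv.ext fun x => ?_
    rw [pow_succ, mul_two, pow_add]
    change (γ ^ (2 ^ M) : (Fin n → ℂ) ≃ₗ[ℂ] (Fin n → ℂ))
      ((γ ^ (2 ^ M) : (Fin n → ℂ) ≃ₗ[ℂ] (Fin n → ℂ)) x) = x
    rw [hneg, hneg, neg_neg]
  have hfo : IsOfFinOrder γ := isOfFinOrder_iff_pow_eq_one.2 ⟨2 ^ (M + 1), pow_pos two_pos _, hγ1⟩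
  have hfin : Finite (Subgroup.zpowers γ) := Set.finite_coe_iff.2 (finite_zpowers.2 hfo)
  have hFt : Fintype (Subgroup.zpowers γ) := Fintype.ofFinite _
  let ρ : (Subgroup.zpowers γ) →* ((Fin n → ℂ) →ₗ[ℂ] (Fin n → ℂ)) :=
    { toFun := fun g => (g : (Fin n → ℂ) ≃ₗ[ℂ] (Fin n → ℂ)).toLinearMap
      map_one' := rfl
      map_mul' := fun _ _ => rfl }
  let g : Subgroup.zpowers γ := ⟨γ, Subgroup.mem_zpowers γ⟩
  have hgen : ∀ h : Subgroup.zpowers γ, ∃ i : ℕ, h = g ^ i := by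
    intro h
    obtain ⟨i, hi⟩ := hfo.mem_powers_iff_mem_zpowers.2 h.2
    refine ⟨i, Subtype.ext ?_⟩
    exact hi.symm
  have hpow : ∀ (i : ℕ) (x : Fin n → ℂ), ρ (g ^ i) x =
      (γ ^ i : (Fin n → ℂ) ≃ₗ[ℂ] (Fin n → ℂ)) x := fun i x => rfl
  have hγim : ∀ i : ℕ, (γ ^ i : (Fin n → ℂ) ≃ₗ[ℂ] (Fin n → ℂ)) '' (⋃ i, Z i) = ⋃ i, Z i := by
    intro i
    induction i with
    | zero =>
      have : ((γ ^ 0 : (Fin n → ℂ) ≃ₗ[ℂ] (Fin n → ℂ)) : (Fin n → ℂ) → (Fin n → ℂ)) = id := by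
        rw [pow_zero]; rfl
      rw [this, Set.image_id]
    | succ i ih =>
      have : ((γ ^ (i + 1) : (Fin n → ℂ) ≃ₗ[ℂ] (Fin n → ℂ)) : (Fin n → ℂ) → (Fin n → ℂ)) =
          (γ ^ i : (Fin n → ℂ) ≃ₗ[ℂ] (Fin n → ℂ)) ∘ γ := by
        rw [pow_succ]; rfl
      rw [this, Set.image_comp, hγZ, ih]
  have hact : ∀ h, ∀ z ∈ ⋃ i, Z i, ρ h z ∈ ⋃ i, Z i := by
    intro h z hz
    obtain ⟨i, rfl⟩ := hgen h
    rw [hpow, ← hγim i]
    exact ⟨z, hz, rfl⟩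
  have htr' : ∀ i j, ∃ h, (fun z => ρ h z) '' Z i = Z j := by
    intro i j
    obtain ⟨m, hm⟩ := htrγ i j
    exact ⟨g ^ m, hm⟩
  have hij : ∃ i j : ι, ∀ z, z ∈ Z i → z ∈ Z j → z = 0 := by
    have h2 : 1 < Nat.card ι := by
      rw [hcard]
      exact Nat.one_lt_two_pow (by omega)
    have : Nontrivial ι := (Finite.one_lt_card_iff_nontrivial).1 h2
    obtain ⟨i, j, hne⟩ := exists_pair_ne ι
    exact ⟨i, j, fun z hz hz' => hdis i j hne ⟨hz, hz'⟩⟩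
  refine final2_data hCEX hFDEX hYPM hYACT hXEX n ι Z (Subgroup.zpowers γ) ρ hZ.closed hZ.cone
    hZ.irred hZ.exists_ne hsm hact htr' M g hgen ?_ ?_ hMAIN2 hij
  · refine Subtype.ext ?_
    exact hγ1
  · intro x
    rw [hpow]
    exact hneg x

end Pool.Agent.Helper87.TC
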