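import Pool.Agent.Helper87.TC.Stmts
import Pool.Agent.Helper87.VM.BS.Fin

/-!
A linear automorphism of finite order, with a power equal to `-1`, permuting the `2 ^ k`
components cyclically.
-/

set_option autoImplicit false

namespace Pool.Agent.Helper87.TC

open MvPolynomial Pool.Agent.Helper48.VMRT Pool.Agent.Helper87.VM

variable {n : ℕ} {ι : Type}

theorem gen0_group [Finite ι] (Z : ι → Set (Fin n → ℂ)) (hZ : IsComponents Z) :
    ∃ (S : Type) (_ : Group S) (_ : Finite S) (r : S →* ((Fin n → ℂ) ≃ₗ[ℂ] (Fin n → ℂ)))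
      (π : S →* bsQ Z), Function.Surjective π ∧ ∀ s i, r s '' Z i = Z ((π s).1 i) := by
  classical
  let Γ : Subgroup (Matrix.GeneralLinearGroup (Fin n) ℂ × bsQ Z) :=
    { carrier := {x | ∀ i, glEquiv n x.1 '' Z i = Z (x.2.1 i)}
      mul_mem' := by
        rintro x y hx hy i
        have h1 : (glEquiv n (x * y).1 : (Fin n → ℂ) → (Fin n → ℂ)) =
            glEquiv n x.1 ∘ glEquiv n y.1 := by
          rw [Prod.fst_mul, map_mul]; rfl
        rw [h1, Set.image_comp, hy i, hx]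
        rfl
      one_mem' := by
        intro i
        have h1 : (glEquiv n (1 : Matrix.GeneralLinearGroup (Fin n) ℂ × bsQ Z).1 :
            (Fin n → ℂ) → (Fin n → ℂ)) = id := by
          rw [Prod.fst_one, map_one]; rfl
        rw [h1, Set.image_id]
        rfl
      inv_mem' := by
        intro x hx i
        have h1 : (glEquiv n (x⁻¹).1 : (Fin n → ℂ) → (Fin n → ℂ)) = (glEquiv n x.1).symm := by
          rw [Prod.fst_inv, map_inv]; rfl
        have h2 := hx ((x.2.1)⁻¹ i)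
        have h3 : x.2.1 ((x.2.1)⁻¹ i) = i := (x.2.1).apply_symm_apply i
        rw [h3] at h2
        rw [h1, ← h2, ← Set.image_comp]
        have : ((glEquiv n x.1).symm : (Fin n → ℂ) → (Fin n → ℂ)) ∘ glEquiv n x.1 = id := by
          funext v; exact (glEquiv n x.1).symm_apply_apply v
        rw [this, Set.image_id]
        rfl }
  choose F hFfin hF using fun q : bsQ Z => bs_eqs Z hZ q.1
  have hmem : ∀ (x : Matrix.GeneralLinearGroup (Fin n) ℂ × bsQ Z), x ∈ Γ ↔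
      ∀ i, glEquiv n x.1 '' Z i = Z (x.2.1 i) := fun x => Iff.rfl
  obtain ⟨S, iS, fS, ρ, π, hπ, hρ⟩ := bs_core F hFfin Γ (by
    rintro ⟨q, a, ha⟩
    refine ⟨(glEquiv n).symm a, ?_⟩
    rw [hmem]
    intro i
    rw [MulEquiv.apply_symm_apply]
    exact ha i) (by
    intro x hx
    rw [hF]
    intro i z hz
    rw [← (hmem x).1 hx i]
    exact ⟨z, hz, rfl⟩)
  have hinto : ∀ s i, ∀ z ∈ Z i, glEquiv n (ρ s) z ∈ Z ((π s).1 i) := by
    intro s
    exact (hF (π s) _).1 (hρ s)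
  refine ⟨S, iS, fS, (glEquiv n).toMonoidHom.comp ρ, π, hπ, fun s i => ?_⟩
  change glEquiv n (ρ s) '' Z i = Z ((π s).1 i)
  refine Set.Subset.antisymm ?_ ?_
  · rintro _ ⟨z, hz, rfl⟩
    exact hinto s i z hz
  · intro x hx
    have h1 := hinto s⁻¹ _ x hx
    have h2 : (π s⁻¹).1 ((π s).1 i) = i := by
      rw [map_inv]
      exact ((π s).1).symm_apply_apply i
    rw [h2, map_inv, map_inv] at h1
    exact ⟨_, h1, (glEquiv n (ρ s)).apply_symm_apply x⟩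

/-- powers of a map permuting the sets `Z i` -/
theorem gen0_pow (Z : ι → Set (Fin n → ℂ)) (a : (Fin n → ℂ) ≃ₗ[ℂ] (Fin n → ℂ))
    (σ : Equiv.Perm ι) (h : ∀ i, a '' Z i = Z (σ i)) (m : ℕ) (i : ι) :
    (a ^ m : (Fin n → ℂ) ≃ₗ[ℂ] (Fin n → ℂ)) '' Z i = Z ((σ ^ m) i) := by
  induction m generalizing i with
  | zero =>
    have : ((a ^ 0 : (Fin n → ℂ) ≃ₗ[ℂ] (Fin n → ℂ)) : (Fin n → ℂ) → (Fin n → ℂ)) = id := by
      rw [pow_zero]; rfl
    rw [this, Set.image_id, pow_zero]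
    rfl
  | succ m ih =>
    have : ((a ^ (m + 1) : (Fin n → ℂ) ≃ₗ[ℂ] (Fin n → ℂ)) : (Fin n → ℂ) → (Fin n → ℂ)) =
        (a ^ m : (Fin n → ℂ) ≃ₗ[ℂ] (Fin n → ℂ)) ∘ a := by
      rw [pow_succ]; rfl
    rw [this, Set.image_comp, h, ih, pow_succ]
    rfl

/-- A transitive permutation has order the number of points. -/
theorem gen0_order [Finite ι] [Nonempty ι] (σ : Equiv.Perm ι)
    (h : ∀ i j, ∃ m : ℕ, (σ ^ m) i = j) : orderOf σ = Nat.card ι := by
  classical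
  obtain ⟨i₀⟩ := ‹Nonempty ι›
  rw [← Nat.card_zpowers σ]
  refine Nat.card_eq_of_bijective (fun g : Subgroup.zpowers σ => (g : Equiv.Perm ι) i₀) ⟨?_, ?_⟩
  · rintro ⟨g, hg⟩ ⟨g', hg'⟩ hgg
    obtain ⟨a, rfl⟩ := Subgroup.mem_zpowers_iff.1 hg
    obtain ⟨b, rfl⟩ := Subgroup.mem_zpowers_iff.1 hg'
    have hgg' : (σ ^ a) i₀ = (σ ^ b) i₀ := hgg
    refine Subtype.ext ?_
    change σ ^ a = σ ^ b
    refine Equiv.ext fun j => ?_
    obtain ⟨m, rfl⟩ := h i₀ j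
    have e1 : ∀ c : ℤ, (σ ^ c) ((σ ^ m) i₀) = (σ ^ m) ((σ ^ c) i₀) := by
      intro c
      have : σ ^ c * σ ^ m = σ ^ m * σ ^ c := by
        rw [← zpow_natCast, ← zpow_add, ← zpow_add, add_comm]
      exact congrArg (fun τ : Equiv.Perm ι => τ i₀) this
    rw [e1, e1, hgg']
  · intro j
    obtain ⟨m, hm⟩ := h i₀ j
    exact ⟨⟨σ ^ m, Subgroup.npow_mem_zpowers σ m⟩, hm⟩

theorem st_GEN0 : ST_GEN0 := by
  classical
  intro n k ι _ Z hZ hcard a ha htr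
  have hne : Nonempty ι := by
    have h0 : Nat.card ι ≠ 0 := by
      rw [hcard]; exact pow_ne_zero _ two_ne_zero
    exact (Nat.card_ne_zero.1 h0).1
  obtain ⟨σ, hσ⟩ := bs_perm Z hZ a ha
  have hσtr : ∀ i j, ∃ m : ℕ, (σ ^ m) i = j := by
    intro i j
    obtain ⟨m, hm⟩ := htr i j
    refine ⟨m, ?_⟩
    rw [gen0_pow Z a σ hσ m i] at hm
    exact hZ.irredundant _ _ hm.le
  have hord : orderOf σ = 2 ^ k := by rw [gen0_order σ hσtr, hcard]
  obtain ⟨S, iS, fS, r, π, hπ, hr⟩ := gen0_group Z hZ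
  obtain ⟨s, hs⟩ := hπ ⟨σ, a, hσ⟩
  have hN : 0 < orderOf s := orderOf_pos s
  obtain ⟨m, o, ho, hmo⟩ := Nat.exists_eq_two_pow_mul_odd hN.ne'
  -- the power of `s`
  obtain ⟨u, hu⟩ : ∃ u : ℕ, o * u ≡ 1 [MOD 2 ^ k] := by
    have hcop : Nat.Coprime o (2 ^ k) := by
      refine Nat.Coprime.pow_right k ?_
      exact (Nat.coprime_two_right).2 ho
    rcases Nat.eq_zero_or_pos k with hk | hk
    · subst hk
      exact ⟨0, by rw [pow_zero]; exact Nat.modEq_one⟩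
    · have h1 : 1 < 2 ^ k := Nat.one_lt_two_pow hk.ne'
      obtain ⟨u, -, hu⟩ := Nat.exists_mul_mod_eq_one_of_coprime hcop h1
      refine ⟨u, ?_⟩
      change o * u % 2 ^ k = 1 % 2 ^ k
      rw [hu, Nat.mod_eq_of_lt h1]
  set f : (Fin n → ℂ) ≃ₗ[ℂ] (Fin n → ℂ) := r (s ^ o) with hf
  have hf1 : ∀ i, f '' Z i = Z ((σ ^ o) i) := by
    intro i
    rw [hf, hr]
    have : (π (s ^ o)).1 = σ ^ o := by
      rw [map_pow, hs]
      rfl
    rw [this]
  have hfm : f ^ (2 ^ m) = 1 := by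
    rw [hf, ← map_pow, ← pow_mul, mul_comm o, ← hmo, pow_orderOf_eq_one, map_one]
  obtain ⟨lam, hlam⟩ := IsAlgClosed.exists_pow_nat_eq (-1 : ℂ) (n := 2 ^ m)
    (pow_pos two_pos m)
  have hlam0 : lam ≠ 0 := by
    rintro rfl
    rw [zero_pow (pow_ne_zero _ two_ne_zero)] at hlam
    norm_num at hlam
  set γ : (Fin n → ℂ) ≃ₗ[ℂ] (Fin n → ℂ) :=
    LinearEquiv.smulOfNeZero ℂ (Fin n → ℂ) lam hlam0 * f with hγ
  have hγ1 : ∀ x, γ x = lam • f x := fun x => rfl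
  have hγj : ∀ (j : ℕ) (x : Fin n → ℂ), (γ ^ j : (Fin n → ℂ) ≃ₗ[ℂ] (Fin n → ℂ)) x =
      lam ^ j • (f ^ j : (Fin n → ℂ) ≃ₗ[ℂ] (Fin n → ℂ)) x := by
    intro j
    induction j with
    | zero => intro x; rw [pow_zero, pow_zero, pow_zero, one_smul]
    | succ j ih =>
      intro x
      rw [pow_succ' γ, pow_succ' f]
      change γ ((γ ^ j : (Fin n → ℂ) ≃ₗ[ℂ] (Fin n → ℂ)) x) =
        lam ^ (j + 1) • f ((f ^ j : (Fin n → ℂ) ≃ₗ[ℂ] (Fin n → ℂ)) x)
      rw [ih, hγ1, map_smul, smul_smul, pow_succ']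
  have hscale : ∀ (c : ℂ), c ≠ 0 → ∀ i (φ : (Fin n → ℂ) → (Fin n → ℂ)) (j : ι),
      φ '' Z i = Z j → (fun x => c • φ x) '' Z i = Z j := by
    intro c hc i φ j h
    refine Set.Subset.antisymm ?_ ?_
    · rintro _ ⟨x, hx, rfl⟩
      refine hZ.cone j c _ ?_
      rw [← h]
      exact ⟨x, hx, rfl⟩
    · intro y hy
      have h1 : c⁻¹ • y ∈ Z j := hZ.cone j _ _ hy
      rw [← h] at h1
      obtain ⟨x, hx, hxy⟩ := h1
      refine ⟨x, hx, ?_⟩
      change c • φ x = y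
      rw [hxy, smul_smul, mul_inv_cancel₀ hc, one_smul]
  have hγZ : ∀ (j : ℕ) (i : ι), (γ ^ j : (Fin n → ℂ) ≃ₗ[ℂ] (Fin n → ℂ)) '' Z i =
      Z (((σ ^ o) ^ j) i) := by
    intro j i
    have h1 := hscale (lam ^ j) (pow_ne_zero _ hlam0) i _ _ (gen0_pow Z f (σ ^ o) hf1 j i)
    have h2 : ((γ ^ j : (Fin n → ℂ) ≃ₗ[ℂ] (Fin n → ℂ)) : (Fin n → ℂ) → (Fin n → ℂ)) =
        fun x => lam ^ j • (f ^ j : (Fin n → ℂ) ≃ₗ[ℂ] (Fin n → ℂ)) x := by
      funext x
      exact hγj j x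
    rw [h2]
    exact h1
  refine ⟨m, γ, ?_, ?_, ?_⟩
  · have h1 : ∀ i, γ '' Z i = Z ((σ ^ o) i) := by
      intro i
      have := hγZ 1 i
      rw [pow_one, pow_one] at this
      exact this
    rw [Set.image_iUnion]
    refine Set.Subset.antisymm ?_ ?_
    · refine Set.iUnion_subset fun i => ?_
      rw [h1]
      exact Set.subset_iUnion Z _
    · refine Set.iUnion_subset fun i => ?_
      have h2 : (σ ^ o) ((σ ^ o)⁻¹ i) = i := (σ ^ o).apply_symm_apply i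
      have h3 := h1 ((σ ^ o)⁻¹ i)
      rw [h2] at h3
      rw [← h3]
      exact Set.subset_iUnion (fun i => γ '' Z i) _
  · intro x
    rw [hγj, hfm, hlam]
    change (-1 : ℂ) • x = -x
    rw [neg_one_smul]
  · intro i j
    obtain ⟨m', hm'⟩ := hσtr i j
    refine ⟨u * m', ?_⟩
    rw [hγZ]
    have h1 : (σ ^ o) ^ (u * m') = σ ^ m' := by
      have h2 : σ ^ (o * u) = σ := by
        conv_rhs => rw [← pow_one σ]
        rw [pow_eq_pow_iff_modEq, hord]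
        exact hu
      rw [← pow_mul, ← mul_assoc, pow_mul, h2]
    rw [h1, hm']

end Pool.Agent.Helper87.TC
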