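import Pool.Agent.Helper87.TC.Lib

/-!
Module HTR0 of `MP_39dd1a_ag` (hand-in `TwoComponents`): the group acts on lines.
-/

set_option autoImplicit false

namespace Pool.Agent.Helper87.TC

open MvPolynomial Pool.Agent.Helper48.VMRT Pool.Agent.Helper87.VM

theorem st_HTR0 : ST_HTR0 := by
  intro D hD g
  refine ⟨(st_HTR D hD g).1, ?_⟩
  intro p q h
  have hinj : Function.Injective (oext D.ρ g) := by
    intro x y hxy
    have h2 := congrArg (oext D.ρ g⁻¹) hxy
    have h3 : ∀ z, oext D.ρ g⁻¹ (oext D.ρ g z) = z := by
      intro z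
      rw [← Module.End.mul_apply, ← map_mul, inv_mul_cancel, map_one, Module.End.one_apply]
    rwa [h3, h3] at h2
  refine ⟨?_, h.ne, ?_⟩
  · have h4 := h.ind.map' (oext D.ρ g) (LinearMap.ker_eq_bot.2 hinj)
    have h5 : (oext D.ρ g) ∘ ![p, q] = ![oext D.ρ g p, oext D.ρ g q] := by
      funext i
      fin_cases i <;> rfl
    rwa [h5] at h4
  · have h6 := hD.Zact g _ h.mem
    have h7 : (fun i => (oext D.ρ g q) none * (oext D.ρ g p) (some i) -
        (oext D.ρ g p) none * (oext D.ρ g q) (some i)) =
        D.ρ g (fun i => q none * p (some i) - p none * q (some i)) := by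
      have h8 : (fun i => q none * p (some i) - p none * q (some i)) =
          q none • (fun i => p (some i)) - p none • (fun i => q (some i)) := rfl
      rw [h8, map_sub, map_smul, map_smul]
      rfl
    rw [h7]
    exact h6

end Pool.Agent.Helper87.TC
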