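import Pool.Agent.Helper87.TC.Lib

/-!
Module INP0 of `MP_39dd1a_ag` (hand-in `TwoComponents`): the input of the tower for the blow-up.
-/

set_option autoImplicit false

namespace Pool.Agent.Helper87.TC

open MvPolynomial Pool.Agent.Helper48.VMRT Pool.Agent.Helper87.VM

/-- A nonzero multiple of an exponent below `2 ^ (M + 1)` is an odd multiple of `2 ^ M`. -/
theorem inp0_exp {M i : ℕ} (hi : 0 < i) (hiM : i < 2 ^ (M + 1)) :
    ∃ m b : ℕ, i * m = 2 ^ M * (2 * b + 1) := by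
  obtain ⟨a, o, ⟨b, rfl⟩, ho⟩ := Nat.exists_eq_two_pow_mul_odd hi.ne'
  have h1 : 2 ^ a < 2 ^ (M + 1) := by
    refine lt_of_le_of_lt ?_ hiM
    rw [ho]
    exact Nat.le_mul_of_pos_right _ (by omega)
  have h2 : a ≤ M := by
    have := (Nat.pow_lt_pow_iff_right (by norm_num : 1 < 2)).1 h1
    omega
  refine ⟨2 ^ (M - a), b, ?_⟩
  have h3 : 2 ^ M = 2 ^ a * 2 ^ (M - a) := by rw [← pow_add]; congr 1; omega
  rw [h3, ho]
  ring

theorem inp0_sq {D : VD} {M : ℕ} {g : D.G} (hTD : TD D M g) :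
    g ^ (2 ^ M) * g ^ (2 ^ M) = 1 := by
  rw [← pow_add, ← two_mul, ← pow_succ', hTD.ord]

theorem inp0_odd {D : VD} {M : ℕ} {g : D.G} (hTD : TD D M g) (b : ℕ) :
    g ^ (2 ^ M * (2 * b + 1)) = g ^ (2 ^ M) := by
  have h1 : 2 ^ M * (2 * b + 1) = 2 ^ (M + 1) * b + 2 ^ M := by rw [pow_succ]; ring
  rw [h1, pow_add, pow_mul, hTD.ord, one_pow, one_mul]

/-- An eigenvector of the involution is in `FX`. -/
theorem inp0_eig {D : VD} {M : ℕ} {g : D.G} (hTD : TD D M g)
    {y : Option (Fin D.w) × D.ν → ℂ} {c : ℂ} (h : D.ρY (g ^ (2 ^ M)) y = c • y) :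
    y ∈ FX D (g ^ (2 ^ M)) := by
  by_cases hy : y = 0
  · left
    rw [hy, map_zero]
  have h1 : y = (c * c) • y := by
    have h2 : D.ρY (g ^ (2 ^ M)) (D.ρY (g ^ (2 ^ M)) y) = y := by
      rw [← Module.End.mul_apply, ← map_mul, inp0_sq hTD, map_one, Module.End.one_apply]
    rw [h, map_smul, h, smul_smul] at h2
    exact h2.symm
  have h3 : (c * c - 1) • y = 0 := by rw [sub_smul, one_smul, ← h1, sub_self]
  have h4 : c * c - 1 = 0 := (smul_eq_zero.1 h3).resolve_right hy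
  have h5 : (c - 1) * (c + 1) = 0 := by linear_combination h4
  rcases mul_eq_zero.1 h5 with h6 | h6
  · left
    rw [h, sub_eq_zero.1 h6, one_smul]
  · right
    rw [h, eq_neg_of_add_eq_zero_left h6, neg_one_smul]

theorem st_INP0 (hHTR0 : ST_HTR0) : ST_INP0 := by
  intro D M g hTD
  have hD := hTD.good
  have hcomm : ∀ y, D.ρY (g ^ (2 ^ M)) (D.ρY g y) = D.ρY g (D.ρY (g ^ (2 ^ M)) y) := by
    intro y
    rw [← Module.End.mul_apply, ← Module.End.mul_apply, ← map_mul, ← map_mul, ← pow_succ,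
      ← pow_succ']
  refine ⟨hD.Ypm, one_ne_zero, ?_, hD.Yact g, ?_, ?_, ?_, ?_, ?_⟩
  · intro y
    rw [← map_pow, hTD.ord, map_one, one_smul]
    rfl
  · have h1 : FX D (g ^ (2 ^ M)) =
        (LinearMap.ker (D.ρY (g ^ (2 ^ M)) - LinearMap.id) : Set _) ∪
          (LinearMap.ker (D.ρY (g ^ (2 ^ M)) + LinearMap.id) : Set _) := by
      ext y
      change (_ ∨ _) ↔ (_ ∈ LinearMap.ker _ ∨ _ ∈ LinearMap.ker _)
      rw [LinearMap.mem_ker, LinearMap.mem_ker, LinearMap.sub_apply, LinearMap.add_apply,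
        LinearMap.id_apply, sub_eq_zero, add_eq_zero_iff_eq_neg]
    rw [h1]
    exact zclosed_union (zclosed_submodule _) (zclosed_submodule _)
  · rintro a y (h | h)
    · left
      rw [map_smul, h]
    · right
      rw [map_smul, h, smul_neg]
  · rintro y (h | h)
    · left
      rw [hcomm, h]
    · right
      rw [hcomm, h, map_neg]
  · intro y _ hyF i hi hiM c hc
    apply hyF
    obtain ⟨m, b, hmb⟩ := inp0_exp hi hiM
    have h1 : ∀ m : ℕ, ((D.ρY g ^ i) ^ m) y = c ^ m • y := by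
      intro m
      induction m with
      | zero => rw [pow_zero, pow_zero, one_smul]; rfl
      | succ m ih =>
        rw [pow_succ', Module.End.mul_apply, ih, map_smul, hc, smul_smul, pow_succ]
    have h2 := h1 m
    rw [← pow_mul, hmb, ← map_pow, inp0_odd hTD] at h2
    exact inp0_eig hTD h2
  · -- a point which is not fixed
    obtain ⟨z, hz, hz0⟩ : ∃ z ∈ D.Z, z ≠ 0 := by
      obtain ⟨i⟩ := hD.ine
      obtain ⟨z, hz, hz0⟩ := hD.Zne i
      exact ⟨z, Set.mem_iUnion.2 ⟨i, hz⟩, hz0⟩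
    have hF : ∀ u : Fin D.w → ℂ, ev D.F (ov 1 u) ≠ 0 := by
      intro u h0
      have h1 := (hD.fd.zero (ov 1 u)).1 (fun j => congrFun h0 j)
      exact one_ne_zero h1.1
    refine ⟨D.gr (ov 1 z), D.gr_mem _, ?_⟩
    intro hFX
    have hne : D.gr (ov 1 z) ≠ 0 := seg_ne_zero (fun h0 => one_ne_zero (congrFun h0 none)) (hF z)
    obtain ⟨e, he0, he⟩ : ∃ e : ℂ, e ≠ 0 ∧
        D.ρY (g ^ (2 ^ M)) (D.gr (ov 1 z)) = e • D.gr (ov 1 z) := by
      rcases hFX with h1 | h1
      · exact ⟨1, one_ne_zero, by rw [h1, one_smul]⟩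
      · exact ⟨-1, neg_ne_zero.2 one_ne_zero, by rw [h1, neg_one_smul]⟩
    rw [← (hHTR0 D hD (g ^ (2 ^ M))).1, oext_ov, hTD.neg] at he
    have h2 : seg (ov 1 z) (e • ev D.F (ov 1 z)) = seg (ov 1 (-z)) (ev D.F (ov 1 (-z))) := by
      rw [seg_smul_right]
      exact he.symm
    obtain ⟨c, -, hc, -⟩ := seg_eq_seg h2 (by
      rw [seg_smul_right]
      exact smul_ne_zero he0 hne)
    have hc1 : c = 1 := by
      have h4 := congrFun hc none
      rw [Pi.smul_apply, smul_eq_mul, ov_none, ov_none, mul_one] at h4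
      exact h4.symm
    rw [hc1, one_smul] at hc
    apply hz0
    funext i
    have h5 : (-z) i = z i := congrFun hc (some i)
    rw [Pi.neg_apply] at h5
    have h6 : (2 : ℂ) * z i = 0 := by linear_combination -h5
    exact (mul_eq_zero.1 h6).resolve_left two_ne_zero

end Pool.Agent.Helper87.TC
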