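import Pool.Agent.Helper87.TC.Lib
import Pool.Agent.Helper41.VM.MEM

/-!
Module MEM0 of `MP_39dd1a_ag` (hand-in `TwoComponents`): the proper transform of a line.
-/

set_option autoImplicit false

namespace Pool.Agent.Helper87.TC

open MvPolynomial Pool.Agent.Helper48.VMRT Pool.Agent.Helper87.VM

theorem st_MEM0 : ST_MEM0 := by
  intro D hD p q hp
  obtain ⟨a, ha⟩ : ∃ a, D.a = a + 1 := ⟨D.a - 1, by have := hD.fd.two_le; omega⟩
  have ha1 : D.a - 1 = a := by omega
  have hlin : ∀ s t : ℂ, ∀ o, (s • p + t • q) o = s * p o + t * q o := fun s t o => rfl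
  -- the forms `F j` along the line
  have hex : ∀ j, ∃ η : Polynomial ℂ, η.natDegree ≤ a ∧ ∀ s t : ℂ,
      (s * p none + t * q none) * hev a η s t = eval (s • p + t • q) (D.F j) := by
    intro j
    obtain ⟨f, hf, hfe⟩ := mem_restr (hD.fd.hom j) p q
    rw [ha] at hf hfe
    have hz : ∀ j, eval (q none • p + (-p none) • q) (D.F j) = 0 := by
      rw [hD.fd.zero]
      constructor
      · rw [hlin]; ring
      · have h1 := hp.mem
        have h2 : (fun i => (q none • p + (-p none) • q) (some i)) =
            fun i => q none * p (some i) - p none * q (some i) := by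
          funext i
          rw [hlin]; ring
        rw [h2]; exact h1
    obtain ⟨η, hη, hfη⟩ := mem_div hp.ne hf (by rw [hfe]; exact hz j)
    refine ⟨η, hη, fun s t => ?_⟩
    rw [← hfe, hfη, add_comm a 1, hev_mul (mem_deg_lin _ _) hη, mem_hev_lin]
  choose η hηd hη using hex
  have hsplit : ∀ s t : ℂ, (s * p none + t * q none) • hevv a η s t =
      ev D.F (s • p + t • q) := fun s t => funext fun j => hη j s t
  set y : Option (Fin D.w) × D.ν → Polynomial ℂ := fun i =>
    (Polynomial.C (p i.1) + Polynomial.C (q i.1) * Polynomial.X) * η i.2 with hy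
  have hyv : ∀ s t : ℂ, hevv D.a y s t = seg (s • p + t • q) (hevv a η s t) := by
    intro s t
    funext i
    have h1 : hev D.a (y i) s t = (s * p i.1 + t * q i.1) * hev a (η i.2) s t := by
      rw [ha, add_comm a 1, hy]
      rw [hev_mul (mem_deg_lin _ _) (hηd i.2), mem_hev_lin]
    exact h1
  have hyd : ∀ i, (y i).natDegree ≤ D.a := by
    intro i
    refine Polynomial.natDegree_mul_le.trans ?_
    have h1 := mem_deg_lin (p i.1) (q i.1)
    have h2 := hηd i.2
    omega
  -- the vector `s p + t q` does not vanish
  have hxne : ∀ s t : ℂ, (s, t) ≠ (0, 0) → s • p + t • q ≠ 0 := by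
    intro s t hst h0
    have h1 := LinearIndependent.pair_iff.1 hp.ind s t h0
    exact hst (Prod.ext h1.1 h1.2)
  -- `η` has no zero
  have hηne : ∀ s t : ℂ, (s, t) ≠ (0, 0) → hevv a η s t ≠ 0 := by
    intro s t hst h0
    by_cases hg : s * p none + t * q none = 0
    · obtain ⟨o, ho⟩ := Function.ne_iff.1 (hxne s t hst)
      have hm : HomE (D.a - 1) ((X o : MvPolynomial (Option (Fin D.w)) ℂ) ^ a) := by
        rw [ha1]
        have := (homE_X o).pow a
        rwa [one_mul] at this
      have hsp := hD.fd.span _ hm
      rw [Submodule.mem_span_range_iff_exists_fun] at hsp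
      obtain ⟨l, hl⟩ := hsp
      have h2 : ∀ s t : ℂ, (s * p o + t * q o) ^ a = ∑ j, l j * hev a (η j) s t := by
        refine mem_ext hp.ne (by fun_prop) ?_ ?_
        · refine continuous_finsetSum _ fun j _ => ?_
          exact continuous_const.mul (mem_cont_hev a (η j))
        · intro s t hst
          have h3 := congrArg (eval (s • p + t • q)) hl
          rw [map_sum, map_mul, map_pow, eval_X, eval_X, hlin, hlin] at h3
          have h4 : (s * p none + t * q none) * (∑ j, l j * hev a (η j) s t) =
              (s * p none + t * q none) * (s * p o + t * q o) ^ a := by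
            rw [← h3, Finset.mul_sum]
            refine Finset.sum_congr rfl fun j _ => ?_
            rw [smul_eval, ← hη j s t]
            ring
          exact (mul_left_cancel₀ hst h4).symm
      have h5 := h2 s t
      have h6 : ∑ j, l j * hev a (η j) s t = 0 := by
        refine Finset.sum_eq_zero fun j _ => ?_
        have : hev a (η j) s t = 0 := congrFun h0 j
        rw [this, mul_zero]
      rw [h6] at h5
      exact pow_ne_zero _ ho h5
    · have h1 := hsplit s t
      rw [h0, smul_zero] at h1
      have h2 := (hD.fd.zero (s • p + t • q)).1 fun j => (congrFun h1 j).symm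
      exact hg h2.1
  have hY : ∀ s t : ℂ, s * p none + t * q none ≠ 0 →
      D.gr (s • p + t • q) = (s * p none + t * q none) • hevv D.a y s t := by
    intro s t _
    rw [hyv, ← seg_smul_right, hsplit]
    rfl
  refine ⟨y, η, ⟨hyd, ?_⟩, ⟨?_, ?_⟩, ?_, ?_, ?_⟩
  · intro s t hst
    rw [hyv]
    exact seg_ne_zero (hxne s t hst) (hηne s t hst)
  · intro i; rw [ha1]; exact hηd i
  · intro s t hst; rw [ha1]; exact hηne s t hst
  · intro s t; rw [ha1]; exact hyv s t
  · intro s t
    refine zclosed_iff.1 hD.Ypm.closed _ fun P hP => ?_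
    revert s t
    refine mem_ext (Ψ := fun _ _ => 0) hp.ne (mem_cont_eval P fun i => mem_cont_hev D.a (y i))
      continuous_const ?_
    intro s t hst
    have h1 := yc_cone (s * p none + t * q none)⁻¹ (D.gr_mem (s • p + t • q))
    rw [hY s t hst, smul_smul, inv_mul_cancel₀ hst, one_smul] at h1
    exact mem_vI.1 hP _ h1
  · intro s t; rw [ha1]; exact hsplit s t

end Pool.Agent.Helper87.TC
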