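import Pool.Agent.Helper87.TC.Lib
import Pool.Agent.Helper41.VM.MEM

/-!
Module MEM2 of `MP_39dd1a_ag` (hand-in `TwoComponents`): the members of the family are images of
proper transforms of lines.
-/

set_option autoImplicit false

namespace Pool.Agent.Helper87.TC

open MvPolynomial Pool.Agent.Helper48.VMRT Pool.Agent.Helper87.VM

theorem mem2_smul {κ μ : Type} {E : μ → MvPolynomial κ ℂ} {m : ℕ} (h : ∀ i, HomE m (E i))
    (a : ℂ) (y : κ → ℂ) : ev E (a • y) = a ^ m • ev E y := by
  funext i
  exact h i a y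

theorem st_MEM2 (hMEM0 : ST_MEM0) : ST_MEM2 := by
  intro D M g N E X DX ε hTR p q hp c hc hDX
  obtain ⟨y, η, hy, hη, hyη, hyY, hηF⟩ := hMEM0 D hTR.td.good p q hp
  have hpt : ∀ s t : ℂ, pt c s t = ev E (hevv D.a y s t) := by
    intro s t
    funext i
    revert s t
    refine mem_ext hp.ne ?_ ?_ ?_
    · unfold pt
      fun_prop
    · exact mem_cont_eval (E i) fun o => mem_cont_hev D.a (y o)
    · intro s t hst
      have h1 := hc s t
      have h2 : D.gr (s • p + t • q) = (s * p none + t * q none) • hevv D.a y s t := by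
        rw [hyη, ← seg_smul_right, hηF]
        rfl
      rw [h2, mem2_smul hTR.res.hom] at h1
      have h3 := congrFun h1 i
      rw [Pi.smul_apply, Pi.smul_apply, smul_eq_mul, smul_eq_mul] at h3
      exact mul_left_cancel₀ (pow_ne_zero _ hst) h3
  refine ⟨y, η, hy, hη, hyη, hyY, hηF, hpt, ?_⟩
  intro s t hst hFX
  apply hDX s t hst
  rw [hpt]
  exact hTR.res.on _ hFX

end Pool.Agent.Helper87.TC
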