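import Pool.Agent.Helper87.TC.Lib

/-!
Module TREX of `MP_39dd1a_ag` (hand-in `TwoComponents`): the resolved quotient of the blow-up.
-/

set_option autoImplicit false

namespace Pool.Agent.Helper87.TC

open MvPolynomial Pool.Agent.Helper48.VMRT Pool.Agent.Helper87.VM

theorem st_TREX (hTOWER : ST_TOWER) (hINP0 : ST_INP0) : ST_TREX := by
  intro D M g hTD
  obtain ⟨N, E, X, DX, ε, hε, hR⟩ := hTOWER (M + 1) _ D.w D.Y (FX D (g ^ (2 ^ M))) (D.ρY g) 1
    (hINP0 D M g hTD)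
  exact ⟨N, E, X, DX, ε, hTD, hR, hε⟩

end Pool.Agent.Helper87.TC
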