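import Pool.Agent.Helper87.VM.All
import Pool.Agent.Helper87.TC.GEN0
import Pool.Agent.Helper87.TC.MAIN2
import Pool.Agent.Helper87.TC.FINAL2
import Pool.Agent.Helper87.TC.DISJ
import Pool.Agent.Helper27.TC.SEPP
import Pool.Agent.Helper27.TC.BC
import Pool.Agent.Helper27.TC.PURE
import Pool.Agent.Helper32.TC.FQ
import Pool.Agent.Helper32.TC.CHART
import Pool.Agent.Helper32.TC.PTS
import Pool.Agent.Helper32.TC.TANI
import Pool.Agent.Helper27.TC.TPM
import Pool.Agent.Helper13.TC.UPB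
import Pool.Agent.Helper32.TC.UPA
import Pool.Agent.Helper32.TC.PSIPM
import Pool.Agent.Helper27.TC.PRIM
import Pool.Agent.Helper50.TC.CLIFT
import Pool.Agent.Helper27.TC.EQUI
import Pool.Agent.Helper27.TC.ADAPT
import Pool.Agent.Helper27.TC.TRANS
import Pool.Agent.Helper15.TC.STEP
import Pool.Agent.Helper27.TC.RCOMP
import Pool.Agent.Helper32.TC.TOWER
import Pool.Agent.Helper50.TC.ELIM
import Pool.Agent.Helper68.TC.DIMM
import Pool.Agent.Helper50.TC.DIMT
import Pool.Agent.Helper97.TC.TAND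
import Pool.Agent.Helper87.TC.HTR0
import Pool.Agent.Helper87.TC.INP0
import Pool.Agent.Helper87.TC.TREX
import Pool.Agent.Helper87.TC.MEM0
import Pool.Agent.Helper13.TC.PAR0
import Pool.Agent.Helper87.TC.LINE
import Pool.Agent.Helper28.TC.GENP
import Pool.Agent.Helper32.TC.COMPE
import Pool.Agent.Helper45.TC.RESD
import Pool.Agent.Helper87.TC.MEM2
import Pool.Agent.Helper87.TC.HTR2
import Pool.Agent.Helper68.TC.HCUR2
import Pool.Agent.Helper87.TC.THR2
import Pool.Agent.Helper46.TC.HIRR2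
import Pool.Agent.Helper13.TC.CURV2
import Pool.Agent.Helper33.TC.HLC2
import Pool.Agent.Helper87.TC.AX
import Pool.Agent.Helper51.TC.UNI2
import Pool.Agent.Helper15.TC.SM2
import Pool.Agent.Helper33.TC.VT2
import Pool.Agent.Helper87.TC.VTS2
import Pool.Agent.Helper33.TC.ISO2
import Pool.Agent.Helper63.VTC.LDOM

/-!
The complete existence theorem on isotrivial VMRT for a model variety which may span the
projective space (`MP_39dd1a_ag`, hand-in `TwoComponents`).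
-/

set_option autoImplicit false

namespace Pool.Agent.Helper87.TC

open MvPolynomial Pool.Agent.Helper48.VMRT Pool.Agent.Helper87.VM

theorem all_TOWER : ST_TOWER := by
  have hPTS := st_PTS st_CHART st_FQ st_BC st_PURE st_SEPP
  have hTANI := st_TANI st_CHART st_FQ st_BC st_PURE
  have hUPB := st_UPB st_CHART st_FQ st_BC st_PURE st_TPM
  have hUPA := st_UPA hUPB st_TRANS
  have hPSIPM := st_PSIPM st_SEPP hPTS hTANI hUPB hUPA VM.st_LB
  have hCLIFT := st_CLIFT hPTS st_PRIM VM.st_FAC1 VM.st_FAC2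
  exact st_TOWER (st_STEP st_ADAPT st_TRANS st_SEPP hPTS hTANI hPSIPM hCLIFT st_EQUI)
    st_RCOMP st_TRANS

theorem all_GENP : ST_GENP :=
  st_GENP st_ELIM (st_DIMM VM.st_PROD VM.st_FIN) st_DIMT st_TAND

theorem all_MAIN2 : ST_MAIN2 := by
  have hTREX := st_TREX all_TOWER (st_INP0 st_HTR0)
  have hMEM2 := st_MEM2 st_MEM0
  have hHTR2 := st_HTR2 st_HTR0
  have hLINE := st_LINE st_HTR0
  have hRESD := st_RESD st_COMPE VM.st_RES
  have hTHR2 := st_THR2 st_MEM0 st_PAR0 st_COMPE hLINE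
  have hHIRR2 := st_HIRR2 hHTR2 hMEM2 hTHR2 st_PAR0 st_COMPE hRESD VM.st_PROD
  have hCURV2 := st_CURV2 (VM.st_YC VM.st_FAC1) VM.st_FAC1
  have hHLC2 := st_HLC2 hCURV2 hMEM2 hRESD
  have hUNI2 := st_UNI2 hMEM2 hHTR2 st_HTR0
  have hSM2 := st_SM2 st_MEM0 hLINE st_VTS2
  have hVT2 := st_VT2 hUNI2 hSM2 hTHR2
  exact st_MAIN2 all_GENP hTREX (st_HCUR2 hMEM2 st_HTR0) hHIRR2 hHLC2 hTHR2 st_AX hUNI2
    (st_ISO2 hVT2 st_VTS2)

theorem all_FINAL2 : ST_FINAL2 := by
  have hTP := st_TP all_QUO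
  have hXEX := st_XEX (st_SEG st_PROD) hTP all_QUO
  have hCIRR := st_CIRR (st_GAL (st_GALA st_HEN))
  have hCEX := st_CEX hCIRR (st_CUP st_CDIST) (st_CLO st_HEN hCIRR st_LB) (st_CFREE st_CDIST)
  have hYIR := st_YIR st_YFIB
  have hYPM := st_YPM st_YCL hYIR st_YUP (st_YLO hYIR st_LB)
  exact st_FINAL2 st_GEN0 all_MAIN2 hCEX (st_FDEX st_FLOC) hYPM st_YACT hXEX

theorem all_DISJ : ST_DISJ := st_DISJ st_LDOM

end Pool.Agent.Helper87.TC
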