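import Mathlib
import Pool.Agent.Helper48.VMRT.Defs
import Pool.Agent.Helper87.VM.Out

/-!
Definition for the existence theorem on isotrivial VMRT for a reducible model variety which may
span the projective space (`MP_39dd1a_ag`): minimal components.
-/

set_option autoImplicit false

namespace Pool.Agent.Helper87.TC

open MvPolynomial Pool.Agent.Helper48.VMRT

/-- `H` is a minimal component: it is open in the space of all parametrized rational curves of
degree `d` in `X`, and for the general point `[v]` of `X` the space of members of `H` through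
`[v]` is nonempty and complete: up to reparametrization, these members are the curves `Φ x`,
`x ∈ P`, `x ≠ 0`, where `P` is the cone over a projective variety, `Φ` is a polynomial map, and
`Φ (a x)` is the reparametrization of `Φ x` by `(s, t) ↦ (s, a t)`. -/
structure IsMinimalComponent {N d : ℕ} (X : Set (Fin (N + 1) → ℂ)) (H : Set (Coef N d)) :
    Prop where
  isOpen : ∃ C : Set (Coef N d), ZClosed C ∧ ∀ c, IsCurve X c → (c ∈ H ↔ c ∉ C)
  complete : ∃ A : Set (Fin (N + 1) → ℂ), ZClosed A ∧ (∃ v ∈ X, v ≠ 0 ∧ v ∉ A) ∧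
    ∀ v ∈ X, v ≠ 0 → v ∉ A →
      ∃ (m : ℕ) (P : Set (Fin m → ℂ)) (Φ : Fin (N + 1) × Fin (d + 1) → MvPolynomial (Fin m) ℂ),
        ZClosed P ∧ (∀ a : ℂ, ∀ x ∈ P, a • x ∈ P) ∧ (∃ x ∈ P, x ≠ 0) ∧
        (∀ x ∈ P, x ≠ 0 → (fun i => eval x (Φ i)) ∈ H ∧
          pt (fun i => eval x (Φ i) : Coef N d) 1 0 = v ∧
          ∀ a s t : ℂ, pt (fun i => eval (a • x) (Φ i) : Coef N d) s t =
            pt (fun i => eval x (Φ i) : Coef N d) s (a * t)) ∧
        ∀ c ∈ H, ∀ s₀ t₀ : ℂ, (s₀, t₀) ≠ (0, 0) → pt c s₀ t₀ = v →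
          ∃ x ∈ P, x ≠ 0 ∧ ∃ α β γ δ : ℂ, α * δ - β * γ ≠ 0 ∧ ∀ s t : ℂ,
            pt c s t = pt (fun i => eval x (Φ i) : Coef N d) (α * s + β * t) (γ * s + δ * t)

end Pool.Agent.Helper87.TC
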