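import Mathlib
import Pool.Agent.Helper87.VM.Stmts
import Pool.Agent.Helper87.VM.Lib2
import Pool.Agent.Helper87.TC.Out

/-!
Definitions for the existence theorem on isotrivial VMRT for a reducible model variety which may
span the projective space (`MP_39dd1a_ag`, hand-in `TwoComponents`).  Projective varieties are
represented by their affine cones.
-/

set_option autoImplicit false

namespace Pool.Agent.Helper87.TC

open MvPolynomial Pool.Agent.Helper48.VMRT Pool.Agent.Helper87.VM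

/-! ### A. the quotient of a cone in `ℂ^κα ⊕ ℂ^κβ` by the involution `(p, q) ↦ (p, -q)` -/

/-- The Zariski closure. -/
noncomputable def Cl {κ : Type} (S : Set (κ → ℂ)) : Set (κ → ℂ) :=
  zeroLocus ℂ (vanishingIdeal ℂ S)

section Psi

variable {κα κβ : Type}

/-- The first component of a vector of `ℂ^κα ⊕ ℂ^κβ`. -/
def pl (y : κα ⊕ κβ → ℂ) : κα → ℂ := fun i => y (Sum.inl i)

/-- The second component of a vector of `ℂ^κα ⊕ ℂ^κβ`. -/
def qr (y : κα ⊕ κβ → ℂ) : κβ → ℂ := fun j => y (Sum.inr j)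

/-- The involution `(p, q) ↦ (p, -q)`. -/
def sg (y : κα ⊕ κβ → ℂ) : κα ⊕ κβ → ℂ := Sum.elim (pl y) (-(qr y))

/-- The index type of the coordinates of `(p ⊗ p ⊗ p ⊗ q, p ⊗ q ⊗ q ⊗ q)`. -/
abbrev KK (κα κβ : Type) : Type := ((Fin 3 → κα) × κβ) ⊕ (κα × (Fin 3 → κβ))

/-- The map `(p, q) ↦ (p ⊗ p ⊗ p ⊗ q, p ⊗ q ⊗ q ⊗ q)`. -/
noncomputable def Psi : KK κα κβ → MvPolynomial (κα ⊕ κβ) ℂ :=
  Sum.elim
    (fun a => X (Sum.inl (a.1 0)) * X (Sum.inl (a.1 1)) * X (Sum.inl (a.1 2)) * X (Sum.inr a.2))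
    (fun b => X (Sum.inl b.1) *
      (X (Sum.inr (b.2 0)) * X (Sum.inr (b.2 1)) * X (Sum.inr (b.2 2))))

/-- The vector `(c p ⊗ p ⊗ p ⊗ q, b p ⊗ q ⊗ q ⊗ q)`. -/
def Theta (p : κα → ℂ) (q : κβ → ℂ) (b c : ℂ) : KK κα κβ → ℂ :=
  Sum.elim (fun a => c * (p (a.1 0) * p (a.1 1) * p (a.1 2)) * q a.2)
    (fun a => b * p a.1 * (q (a.2 0) * q (a.2 1) * q (a.2 2)))

/-- The differential of `Theta` at `(p, q, b, c)` in the direction `(p', q', b', c')`. -/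
def DTh (p : κα → ℂ) (q : κβ → ℂ) (b c : ℂ) (p' : κα → ℂ) (q' : κβ → ℂ) (b' c' : ℂ) :
    KK κα κβ → ℂ :=
  Sum.elim
    (fun a => c' * (p (a.1 0) * p (a.1 1) * p (a.1 2)) * q a.2 +
      c * (p' (a.1 0) * p (a.1 1) * p (a.1 2) + p (a.1 0) * p' (a.1 1) * p (a.1 2) +
        p (a.1 0) * p (a.1 1) * p' (a.1 2)) * q a.2 +
      c * (p (a.1 0) * p (a.1 1) * p (a.1 2)) * q' a.2)
    (fun a => b' * p a.1 * (q (a.2 0) * q (a.2 1) * q (a.2 2)) +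
      b * p' a.1 * (q (a.2 0) * q (a.2 1) * q (a.2 2)) +
      b * p a.1 * (q' (a.2 0) * q (a.2 1) * q (a.2 2) + q (a.2 0) * q' (a.2 1) * q (a.2 2) +
        q (a.2 0) * q (a.2 1) * q' (a.2 2)))

/-- The points of `ℂ^KK` over the fixed points of the involution. -/
def Bd (κα κβ : Type) : Set (KK κα κβ → ℂ) :=
  {w | (∀ a, w (Sum.inl a) = 0) ∨ ∀ b, w (Sum.inr b) = 0}

/-- A closed cone which is stable under the involution. -/
structure AdCone (S : Set (κα ⊕ κβ → ℂ)) : Prop where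
  closed : ZClosed S
  cone : ∀ a : ℂ, ∀ y ∈ S, a • y ∈ S
  inv : ∀ y ∈ S, sg y ∈ S

/-- The component of degree `j` in the second group of variables. -/
noncomputable def bcomp (j : ℕ) (f : MvPolynomial (κα ⊕ κβ) ℂ) : MvPolynomial (κα ⊕ κβ) ℂ :=
  weightedHomogeneousComponent (Sum.elim (fun _ => 0) (fun _ => 1) : κα ⊕ κβ → ℕ) j f

/-- `f` is homogeneous of degree `d`, and the degrees of its monomials in the second group of
variables are `ε` modulo `2`. -/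
structure Pure (d ε : ℕ) (f : MvPolynomial (κα ⊕ κβ) ℂ) : Prop where
  hom : HomE d f
  le : ε ≤ 1
  par : ∀ j, j % 2 ≠ ε → bcomp j f = 0

end Psi

/-! ### B. resolved quotients by cyclic groups of order a power of `2` -/

/-- `E`, homogeneous of degree `m`, maps `ℙY` minus `ℙD` onto `ℙX` minus `ℙDX`; this is the
quotient by the group generated by `γ`, and `ℙX` is a projective manifold of dimension `n`. -/
structure Res {κ μ : Type} [Fintype κ] [Fintype μ] (n m : ℕ) (Y D : Set (κ → ℂ))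
    (γ : (κ → ℂ) →ₗ[ℂ] (κ → ℂ)) (E : μ → MvPolynomial κ ℂ) (X DX : Set (μ → ℂ))
    (γ' : (μ → ℂ) →ₗ[ℂ] (μ → ℂ)) : Prop where
  hom : ∀ i, HomE m (E i)
  pm : PM n X
  img : ∀ y ∈ Y, ev E y ∈ X
  dcl : ZClosed DX
  dcone : ∀ a : ℂ, ∀ x ∈ DX, a • x ∈ DX
  on : ∀ y ∈ D, ev E y ∈ DX
  off : ∀ y ∈ Y, y ∉ D → ev E y ∉ DX
  surj : ∀ x ∈ X, x ∉ DX → ∃ y ∈ Y, y ∉ D ∧ x = ev E y
  sep : ∀ y ∈ Y, y ∉ D → ∀ y' ∈ Y, y' ∉ D → ∀ a : ℂ, ev E y' = a • ev E y →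
    ∃ (i : ℕ) (c : ℂ), y' = c • (γ ^ i) y
  equi : ∀ y, ev E (γ y) = γ' (ev E y)
  imm : ∀ y ∈ Y, y ∉ D → ∀ v, dev E y v = 0 → v = 0
  tan : ∀ y ∈ Y, y ∉ D → ∀ v ∈ tsp X (ev E y), ∃ u ∈ tsp Y y, v = dev E y u
  lift : ∀ (e : ℕ) (c : μ → Polynomial ℂ), Mor e c → (∀ s t : ℂ, hevv e c s t ∈ X) →
    (∀ s t : ℂ, (s, t) ≠ (0, 0) → hevv e c s t ∉ DX) →
    ∃ (e' : ℕ) (y : κ → Polynomial ℂ), e = m * e' ∧ Mor e' y ∧
      (∀ s t : ℂ, hevv e' y s t ∈ Y) ∧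
      (∀ s t : ℂ, (s, t) ≠ (0, 0) → hevv e' y s t ∉ D) ∧
      ∀ s t : ℂ, hevv e c s t = ev E (hevv e' y s t)
  sets : ∀ S : Set (κ → ℂ), ZClosed S → (∀ a : ℂ, ∀ y ∈ S, a • y ∈ S) → S ⊆ Y →
    (∀ y ∈ S, γ y ∈ S) →
    ∃ S' : Set (μ → ℂ), ZClosed S' ∧ (∀ a : ℂ, ∀ x ∈ S', a • x ∈ S') ∧ S' ⊆ X ∧
      (∀ x ∈ S', γ' x ∈ S') ∧ ∀ y ∈ Y, y ∉ D → (ev E y ∈ S' ↔ y ∈ S)

/-- The input of a resolved quotient by the group generated by `γ`, of order `r` on `ℙY`, acting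
freely outside `ℙD`. -/
structure Inp {κ : Type} [Fintype κ] (n r : ℕ) (Y D : Set (κ → ℂ))
    (γ : (κ → ℂ) →ₗ[ℂ] (κ → ℂ)) (ε : ℂ) : Prop where
  pm : PM n Y
  ne : ε ≠ 0
  pow : ∀ y, (γ ^ r) y = ε • y
  act : ∀ y ∈ Y, γ y ∈ Y
  dcl : ZClosed D
  dcone : ∀ a : ℂ, ∀ y ∈ D, a • y ∈ D
  dact : ∀ y ∈ D, γ y ∈ D
  free : ∀ y ∈ Y, y ∉ D → ∀ i : ℕ, 0 < i → i < r → ∀ c : ℂ, (γ ^ i) y ≠ c • y
  exi : ∃ y ∈ Y, y ∉ D

/-! ### C. the data of the construction -/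

/-- The equations of the tangent space of the model variety at `z`. -/
noncomputable def TT {w : ℕ} {ν : Type} (F : ν → MvPolynomial (Option (Fin w)) ℂ)
    (z : Fin w → ℂ) : Submodule ℂ (Fin w → ℂ) :=
  LinearMap.ker (Matrix.mulVecLin (Matrix.of fun (j : ν) (i : Fin w) =>
    eval (ov 0 z) (pderiv (some i) (F j))))

/-- The fixed points of `h` on the projective space containing the blow-up, if `h ^ 2 = 1`. -/
def FX (D : VD) (h : D.G) : Set (Option (Fin D.w) × D.ν → ℂ) :=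
  {y | D.ρY h y = y ∨ D.ρY h y = -y}

/-- The group is generated by `g`, of order dividing `2 ^ (M + 1)`, and `g ^ (2 ^ M)` acts as
`-1`. -/
structure TD (D : VD) (M : ℕ) (g : D.G) : Prop where
  good : D.Good
  fin : Finite D.ι
  gen : ∀ h : D.G, ∃ i : ℕ, h = g ^ i
  ord : g ^ (2 ^ (M + 1)) = 1
  neg : ∀ x, D.ρ (g ^ (2 ^ M)) x = -x

/-- The resolved quotient of the blow-up. -/
structure TR (D : VD) (M : ℕ) (g : D.G) (N : ℕ)
    (E : Fin (N + 1) → MvPolynomial (Option (Fin D.w) × D.ν) ℂ)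
    (X DX : Set (Fin (N + 1) → ℂ)) (ε : ℂ) : Prop where
  td : TD D M g
  res : Res D.w (4 ^ (M + 1)) D.Y (FX D (g ^ (2 ^ M))) (D.ρY g) E X DX (ε • LinearMap.id)
  eps : ε ≠ 0

/-- `p`, `q` span a line which is not contained in `x₀ = 0` and meets `x₀ = 0` in a point of
`Z`. -/
structure LP (D : VD) (p q : Option (Fin D.w) → ℂ) : Prop where
  ind : LinearIndependent ℂ ![p, q]
  ne : p none ≠ 0 ∨ q none ≠ 0
  mem : (fun i => q none * p (some i) - p none * q (some i)) ∈ D.Z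

/-- The family of (parametrized) curves. -/
def H2 (D : VD) (M N : ℕ) (E : Fin (N + 1) → MvPolynomial (Option (Fin D.w) × D.ν) ℂ)
    (DX : Set (Fin (N + 1) → ℂ)) : Set (Coef N (4 ^ (M + 1) * D.a)) :=
  {c | ∃ p q, LP D p q ∧
    (∀ s t : ℂ, (s * p none + t * q none) ^ 4 ^ (M + 1) • pt c s t =
      ev E (D.gr (s • p + t • q))) ∧
    ∀ s t : ℂ, (s, t) ≠ (0, 0) → pt c s t ∉ DX}

/-- `u` is general: it lies on no tangent space of `Z`, and it is moved by the group in a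
direction outside `Z`. -/
structure GenP (D : VD) (M : ℕ) (g : D.G) (u : Fin D.w → ℂ) : Prop where
  tan : ∀ z ∈ D.Z, z ≠ 0 → u ∉ TT D.F z
  mov : ∀ k : ℕ, 0 < k → k < 2 ^ (M + 1) → D.ρ (g ^ k) u - u ∉ D.Z

/-- The vector of binary forms with coefficient array `c`. -/
def cev {κ : Type} (d : ℕ) (c : κ × Fin (d + 1) → ℂ) (s t : ℂ) : κ → ℂ :=
  fun i => ∑ j : Fin (d + 1), c (i, j) * s ^ (d - (j : ℕ)) * t ^ (j : ℕ)

/-- The tangent vector of the line with direction `z` through the point over `(1, u)`. -/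
noncomputable def dTh2 (D : VD) {N : ℕ}
    (E : Fin (N + 1) → MvPolynomial (Option (Fin D.w) × D.ν) ℂ) (c₀ : ℂ)
    (u z : Fin D.w → ℂ) : Fin (N + 1) → ℂ :=
  dev E (c₀ • D.gr (ov 1 u))
    (seg (ov 0 z) (ev D.F (ov 1 u)) + seg (ov 1 u) (dev D.F (ov 1 u) (ov 0 z)))

end Pool.Agent.Helper87.TC
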