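import Pool.Agent.Helper87.TC.Defs

/-!
Statements of all modules of the existence theorem on isotrivial VMRT for a reducible model
variety which may span the projective space (`MP_39dd1a_ag`, hand-in `TwoComponents`).
-/

set_option autoImplicit false

namespace Pool.Agent.Helper87.TC

open MvPolynomial Pool.Agent.Helper48.VMRT Pool.Agent.Helper87.VM

/-! ### A. one involution, in adapted coordinates -/

section A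

/-- Coordinates on the closure of the image of `Psi`, chart `p i₀ = q l₀ = 1`, `c ≠ 0`. -/
def ST_CHART : Prop :=
  ∀ (κα κβ : Type) [Fintype κα] [Fintype κβ] (S : Set (κα ⊕ κβ → ℂ)),
    ∀ w ∈ Cl (ev Psi '' S),
    (w ≠ 0 → (∃ (i₀ : κα) (l₀ : κβ), w (Sum.inl (fun _ => i₀, l₀)) ≠ 0) ∨
      ∃ (i₀ : κα) (l₀ : κβ), w (Sum.inr (i₀, fun _ => l₀)) ≠ 0) ∧
    (∀ a, w (Sum.inl a) ≠ 0 → ∃ (i₀ : κα) (l₀ : κβ), w (Sum.inl (fun _ => i₀, l₀)) ≠ 0) ∧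
    ∀ (i₀ : κα) (l₀ : κβ), w (Sum.inl (fun _ => i₀, l₀)) ≠ 0 →
      ∃ (p : κα → ℂ) (q : κβ → ℂ) (b c : ℂ), p i₀ = 1 ∧ q l₀ = 1 ∧ c ≠ 0 ∧
        w = Theta p q b c ∧
        ∀ v ∈ tsp (Cl (ev Psi '' S)) w, ∃ (p' : κα → ℂ) (q' : κβ → ℂ) (b' c' : ℂ),
          p' i₀ = 0 ∧ q' l₀ = 0 ∧ v = DTh p q b c p' q' b' c'

/-- Polynomials on `ℂ^KK` attached to a pure form. -/
def ST_FQ : Prop :=
  ∀ (κα κβ : Type) [Fintype κα] [Fintype κβ] (d ε : ℕ) (f : MvPolynomial (κα ⊕ κβ) ℂ),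
    Pure d ε f → ∀ T : ℕ, d + 1 ≤ T → ∀ (i : κα) (l : κβ),
      ∃ G : MvPolynomial (KK κα κβ) ℂ, ∀ (p : κα → ℂ) (q : κβ → ℂ) (b c : ℂ),
        eval (Theta p q b c) G = p i ^ (3 * T - d + ε) * q l ^ (T - ε) *
          ∑ k ∈ Finset.range (T + 1),
            eval (Sum.elim p q) (bcomp (2 * k + ε) f) * c ^ (T - k) * b ^ k

/-- Properties of the components of a pure form. -/
def ST_BC : Prop :=
  ∀ (κα κβ : Type) [Fintype κα] [Fintype κβ] (d ε : ℕ) (f : MvPolynomial (κα ⊕ κβ) ℂ),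
    Pure d ε f → ∀ T : ℕ, d ≤ T →
    (∀ (x y : ℂ) (p : κα → ℂ) (q : κβ → ℂ) (j : ℕ), j ≤ d →
      eval (Sum.elim (x • p) (y • q)) (bcomp j f) =
        x ^ (d - j) * y ^ j * eval (Sum.elim p q) (bcomp j f)) ∧
    (∀ (p : κα → ℂ) (q : κβ → ℂ), eval (Sum.elim p q) f =
      ∑ k ∈ Finset.range (T + 1), eval (Sum.elim p q) (bcomp (2 * k + ε) f)) ∧
    (∀ j, d < j → bcomp j f = 0) ∧
    (∀ (p : κα → ℂ) (q : κβ → ℂ), eval (Sum.elim p q) (bcomp 0 f) =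
      eval (Sum.elim p 0) f) ∧
    (∀ (p : κα → ℂ) (q : κβ → ℂ), eval (Sum.elim p q) (bcomp 1 f) =
      dpol f (Sum.elim p 0) (Sum.elim 0 q))

/-- The ideal of an adapted cone is spanned by pure forms. -/
def ST_PURE : Prop :=
  ∀ (κα κβ : Type) [Fintype κα] [Fintype κβ] (S : Set (κα ⊕ κβ → ℂ)), AdCone S →
    (∀ y, (∀ d ε f, f ∈ vanishingIdeal ℂ S → Pure d ε f → eval y f = 0) → y ∈ S) ∧
    ∀ y v, (∀ d ε f, f ∈ vanishingIdeal ℂ S → Pure d ε f → dpol f y v = 0) → v ∈ tsp S y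

/-- The map `Psi` separates orbits and is immersive outside the fixed points. -/
def ST_SEPP : Prop :=
  ∀ (κα κβ : Type) [Fintype κα] [Fintype κβ] (y : κα ⊕ κβ → ℂ), pl y ≠ 0 → qr y ≠ 0 →
    ev Psi y ≠ 0 ∧
    (∀ (y' : κα ⊕ κβ → ℂ) (a : ℂ), pl y' ≠ 0 → qr y' ≠ 0 → ev Psi y' = a • ev Psi y →
      ∃ c : ℂ, y' = c • y ∨ y' = c • sg y) ∧
    ∀ v, dev Psi y v = 0 → v = 0

/-- Points of the closure of the image outside the boundary. -/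
def ST_PTS : Prop :=
  ∀ (κα κβ : Type) [Fintype κα] [Fintype κβ] (S : Set (κα ⊕ κβ → ℂ)), AdCone S →
    (∀ w ∈ Cl (ev Psi '' S), w ∉ Bd κα κβ →
      ∃ y ∈ S, pl y ≠ 0 ∧ qr y ≠ 0 ∧ w = ev Psi y) ∧
    ∀ y, pl y ≠ 0 → qr y ≠ 0 → ev Psi y ∈ Cl (ev Psi '' S) → y ∈ S

/-- Tangent vectors of the closure of the image outside the boundary. -/
def ST_TANI : Prop :=
  ∀ (κα κβ : Type) [Fintype κα] [Fintype κβ] (S : Set (κα ⊕ κβ → ℂ)), AdCone S →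
    ∀ y ∈ S, pl y ≠ 0 → qr y ≠ 0 → ∀ v,
      v ∈ tsp (Cl (ev Psi '' S)) (ev Psi y) ↔ ∃ u ∈ tsp S y, v = dev Psi y u

/-- The tangent space at a fixed point splits. -/
def ST_TPM : Prop :=
  ∀ (κα κβ : Type) [Fintype κα] [Fintype κβ] (n : ℕ) (Y : Set (κα ⊕ κβ → ℂ)), PM n Y →
    AdCone Y → ∀ p : κα → ℂ, p ≠ 0 → Sum.elim p (0 : κβ → ℂ) ∈ Y →
      ∃ (U₁ : Submodule ℂ (κα → ℂ)) (U₂ : Submodule ℂ (κβ → ℂ)),
        (∀ p' : κα → ℂ, p' ∈ U₁ ↔ Sum.elim p' (0 : κβ → ℂ) ∈ tsp Y (Sum.elim p 0)) ∧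
        (∀ q' : κβ → ℂ, q' ∈ U₂ ↔ Sum.elim (0 : κα → ℂ) q' ∈ tsp Y (Sum.elim p 0)) ∧
        Module.finrank ℂ U₁ + Module.finrank ℂ U₂ = n + 1

/-- Upper bound for the tangent spaces at the boundary, `b = 0`. -/
def ST_UPB : Prop :=
  ∀ (κα κβ : Type) [Fintype κα] [Fintype κβ] (n : ℕ) (Y : Set (κα ⊕ κβ → ℂ)), PM n Y →
    AdCone Y → ∀ w ∈ Cl (ev Psi '' Y), w ≠ 0 → (∀ a, w (Sum.inr a) = 0) →
      Module.finrank ℂ (tsp (Cl (ev Psi '' Y)) w) ≤ n + 1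

/-- Upper bound for the tangent spaces at the boundary, `c = 0`. -/
def ST_UPA : Prop :=
  ∀ (κα κβ : Type) [Fintype κα] [Fintype κβ] (n : ℕ) (Y : Set (κα ⊕ κβ → ℂ)), PM n Y →
    AdCone Y → ∀ w ∈ Cl (ev Psi '' Y), w ≠ 0 → (∀ a, w (Sum.inl a) = 0) →
      Module.finrank ℂ (tsp (Cl (ev Psi '' Y)) w) ≤ n + 1

/-- The resolved quotient by the involution is a projective manifold. -/
def ST_PSIPM : Prop :=
  ∀ (κα κβ : Type) [Fintype κα] [Fintype κβ] (n : ℕ) (Y : Set (κα ⊕ κβ → ℂ)), PM n Y →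
    AdCone Y → (∃ y ∈ Y, pl y ≠ 0 ∧ qr y ≠ 0) → PM n (Cl (ev Psi '' Y))

/-- Proportional vectors of binary forms without common zeros. -/
def ST_PRIM : Prop :=
  ∀ (κ : Type) [Fintype κ] (d e : ℕ) (p q : κ → Polynomial ℂ), Mor d p → Mor e q →
    (∀ s t : ℂ, (s, t) ≠ (0, 0) → ∃ a : ℂ, hevv d p s t = a • hevv e q s t) →
    d = e ∧ ∃ a : ℂ, a ≠ 0 ∧ ∀ i, p i = Polynomial.C a * q i

/-- Curves outside the boundary lift. -/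
def ST_CLIFT : Prop :=
  ∀ (κα κβ : Type) [Fintype κα] [Fintype κβ] (S : Set (κα ⊕ κβ → ℂ)), AdCone S →
    ∀ (e : ℕ) (c : KK κα κβ → Polynomial ℂ), Mor e c →
    (∀ s t : ℂ, hevv e c s t ∈ Cl (ev Psi '' S)) →
    (∀ s t : ℂ, (s, t) ≠ (0, 0) → hevv e c s t ∉ Bd κα κβ) →
    ∃ (e' : ℕ) (y : κα ⊕ κβ → Polynomial ℂ), e = 4 * e' ∧ Mor e' y ∧
      (∀ s t : ℂ, hevv e' y s t ∈ S) ∧
      ∀ s t : ℂ, hevv e c s t = ev Psi (hevv e' y s t)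

/-- Linear maps induced on `ℂ^KK`. -/
def ST_EQUI : Prop :=
  ∀ (κα κβ : Type) [Fintype κα] [Fintype κβ] (γα : (κα → ℂ) →ₗ[ℂ] (κα → ℂ))
    (γβ : (κβ → ℂ) →ₗ[ℂ] (κβ → ℂ)) (K : ℕ) (δ : ℂ), (∀ p, (γα ^ K) p = δ • p) →
    (∀ q, (γβ ^ K) q = (-δ) • q) →
    ∃ γ' : (KK κα κβ → ℂ) →ₗ[ℂ] (KK κα κβ → ℂ),
      (∀ (p : κα → ℂ) (q : κβ → ℂ), γ' (ev Psi (Sum.elim p q)) =
        ev Psi (Sum.elim (γα p) (γβ q))) ∧
      (∀ w, (∀ a, w (Sum.inl a) = 0) → ∀ a, γ' w (Sum.inl a) = 0) ∧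
      (∀ w, (∀ a, w (Sum.inr a) = 0) → ∀ a, γ' w (Sum.inr a) = 0) ∧
      ∀ w, (γ' ^ K) w = (-δ ^ 4) • w

/-- Adapted coordinates for a linear map whose `2K`-th power is a scalar. -/
def ST_ADAPT : Prop :=
  ∀ (κ : Type) [Fintype κ] (γ : (κ → ℂ) →ₗ[ℂ] (κ → ℂ)) (K : ℕ) (ε : ℂ), ε ≠ 0 →
    (∀ y, (γ ^ (2 * K)) y = ε • y) →
    ∃ (κα κβ : Type) (_ : Fintype κα) (_ : Fintype κβ) (φ : (κα ⊕ κβ → ℂ) ≃ₗ[ℂ] (κ → ℂ))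
      (γα : (κα → ℂ) →ₗ[ℂ] (κα → ℂ)) (γβ : (κβ → ℂ) →ₗ[ℂ] (κβ → ℂ)) (δ : ℂ), δ ≠ 0 ∧
      δ ^ 2 = ε ∧
      (∀ y, γ (φ y) = φ (Sum.elim (γα (pl y)) (γβ (qr y)))) ∧
      (∀ p, (γα ^ K) p = δ • p) ∧ (∀ q, (γβ ^ K) q = (-δ) • q) ∧
      ∀ y, (γ ^ K) (φ y) = δ • φ (sg y)

/-- Transport by a linear isomorphism. -/
def ST_TRANS : Prop :=
  ∀ (κ κ' : Type) [Fintype κ] [Fintype κ'] (φ : (κ → ℂ) ≃ₗ[ℂ] (κ' → ℂ)) (S : Set (κ' → ℂ)),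
    (ZClosed S → ZClosed (φ ⁻¹' S)) ∧
    (∀ n, PM n S → PM n (φ ⁻¹' S)) ∧
    (∀ y v, v ∈ tsp (φ ⁻¹' S) y ↔ φ v ∈ tsp S (φ y)) ∧
    ∀ (e : ℕ) (c : κ → Polynomial ℂ), Mor e c →
      ∃ c' : κ' → Polynomial ℂ, Mor e c' ∧ ∀ s t : ℂ, hevv e c' s t = φ (hevv e c s t)

end A

/-! ### B. towers -/

/-- One step: the resolved quotient by the involution induced by `γ ^ K`. -/
def ST_STEP : Prop :=
  ∀ (κ : Type) [Fintype κ] (n K : ℕ) (Y D : Set (κ → ℂ)) (γ : (κ → ℂ) →ₗ[ℂ] (κ → ℂ)) (ε : ℂ),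
    1 ≤ K → Inp n (2 * K) Y D γ ε →
    ∃ (μ : Type) (_ : Fintype μ) (P : μ → MvPolynomial κ ℂ) (Y' D' : Set (μ → ℂ))
      (γ' : (μ → ℂ) →ₗ[ℂ] (μ → ℂ)) (ε' : ℂ),
      Res n 4 Y D γ P Y' D' γ' ∧ Inp n K Y' D' γ' ε'

/-- Composition of resolved quotients. -/
def ST_RCOMP : Prop :=
  ∀ (κ μ ν : Type) [Fintype κ] [Fintype μ] [Fintype ν] (n m₁ m₂ r : ℕ) (Y D : Set (κ → ℂ))
    (γ : (κ → ℂ) →ₗ[ℂ] (κ → ℂ)) (ε : ℂ) (E₁ : μ → MvPolynomial κ ℂ) (Y₁ D₁ : Set (μ → ℂ))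
    (γ₁ : (μ → ℂ) →ₗ[ℂ] (μ → ℂ)) (E₂ : ν → MvPolynomial μ ℂ) (X DX : Set (ν → ℂ))
    (γ₂ : (ν → ℂ) →ₗ[ℂ] (ν → ℂ)), 1 ≤ r → Inp n r Y D γ ε →
    Res n m₁ Y D γ E₁ Y₁ D₁ γ₁ → Res n m₂ Y₁ D₁ γ₁ E₂ X DX γ₂ →
    Res n (m₂ * m₁) Y D γ (fun i => aeval E₁ (E₂ i)) X DX γ₂

/-- The resolved quotient by a cyclic group of order `2 ^ m`. -/
def ST_TOWER : Prop :=
  ∀ (m : ℕ) (κ : Type) [Fintype κ] (n : ℕ) (Y D : Set (κ → ℂ))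
    (γ : (κ → ℂ) →ₗ[ℂ] (κ → ℂ)) (ε : ℂ), Inp n (2 ^ m) Y D γ ε →
    ∃ (N : ℕ) (E : Fin (N + 1) → MvPolynomial κ ℂ) (X DX : Set (Fin (N + 1) → ℂ)) (ε' : ℂ),
      ε' ≠ 0 ∧ Res n (4 ^ m) Y D γ E X DX (ε' • LinearMap.id)

/-! ### C. dimension of the tangent variety -/

/-- The projection of a closed set which is a cone in the first group of variables. -/
def ST_ELIM : Prop :=
  ∀ (κ₁ κ₂ : Type) [Fintype κ₁] [Fintype κ₂] (W : Set (κ₁ ⊕ κ₂ → ℂ)), ZClosed W →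
    (∀ (a : ℂ) (z : κ₁ → ℂ) (u : κ₂ → ℂ), Sum.elim z u ∈ W → Sum.elim (a • z) u ∈ W) →
    ZClosed {u : κ₂ → ℂ | ∃ z : κ₁ → ℂ, z ≠ 0 ∧ Sum.elim z u ∈ W}

/-- Any `m + 1` coordinates are algebraically dependent on `Z`. -/
def Rel {w : ℕ} (m : ℕ) (Z : Set (Fin w → ℂ)) : Prop :=
  ∀ e : Fin (m + 1) → Fin w, Function.Injective e →
    ∃ P : MvPolynomial (Fin (m + 1)) ℂ, P ≠ 0 ∧ ∀ z ∈ Z, eval (fun i => z (e i)) P = 0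

/-- The dimension of the components, if two of them are disjoint. -/
def ST_DIMM : Prop :=
  ∀ (w : ℕ) (ι : Type) [Finite ι] (Zi : ι → Set (Fin w → ℂ)), (∀ i, ZClosed (Zi i)) →
    (∀ i, ∀ a : ℂ, ∀ z ∈ Zi i, a • z ∈ Zi i) → (∀ i, (vanishingIdeal ℂ (Zi i)).IsPrime) →
    (∀ i j, ∃ a : (Fin w → ℂ) ≃ₗ[ℂ] (Fin w → ℂ), a '' Zi i = Zi j) →
    (∃ i j, ∀ z, z ∈ Zi i → z ∈ Zi j → z = 0) →
    ∃ m : ℕ, 2 * m ≤ w ∧ Rel m (⋃ i, Zi i)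

/-- The tangent spaces have dimension at most `m`. -/
def ST_DIMT : Prop :=
  ∀ (G ν : Type) [Group G] [Fintype ν] (w : ℕ) (Z : Set (Fin w → ℂ))
    (ρ : G →* ((Fin w → ℂ) →ₗ[ℂ] (Fin w → ℂ))) (a : ℕ)
    (F : ν → MvPolynomial (Option (Fin w)) ℂ) (ρν : G →* ((ν → ℂ) →ₗ[ℂ] (ν → ℂ))) (m : ℕ),
    FD Z ρ a F ρν → Rel m Z → ∀ z ∈ Z, z ≠ 0 → Module.finrank ℂ (TT F z) ≤ m

/-- A general vector is in no tangent space. -/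
def ST_TAND : Prop :=
  ∀ (w m r : ℕ) (ν : Type) [Fintype ν] (Z : Set (Fin w → ℂ))
    (A : ν → Fin w → MvPolynomial (Fin w) ℂ), 1 ≤ w → 2 * m ≤ w →
    (∀ a : ℂ, ∀ z ∈ Z, a • z ∈ Z) → Rel m Z → (∀ j i, HomE r (A j i)) →
    (∀ z ∈ Z, z ≠ 0 → Module.finrank ℂ (LinearMap.ker (Matrix.mulVecLin
      (Matrix.of fun (j : ν) (i : Fin w) => eval z (A j i)))) ≤ m) →
    ∃ u : Fin w → ℂ, ∀ z ∈ Z, z ≠ 0 → ∃ j, ∑ i, eval z (A j i) * u i ≠ 0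

/-! ### D. the blow-up -/

/-- The input of the tower for the blow-up. -/
def ST_INP0 : Prop :=
  ∀ (D : VD) (M : ℕ) (g : D.G), TD D M g →
    Inp D.w (2 ^ (M + 1)) D.Y (FX D (g ^ (2 ^ M))) (D.ρY g) 1

/-- The blow-up has a resolved quotient. -/
def ST_TREX : Prop :=
  ∀ (D : VD) (M : ℕ) (g : D.G), TD D M g → ∃ (N : ℕ)
    (E : Fin (N + 1) → MvPolynomial (Option (Fin D.w) × D.ν) ℂ) (X DX : Set (Fin (N + 1) → ℂ))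
    (ε : ℂ), TR D M g N E X DX ε

/-- The group acts on lines. -/
def ST_HTR0 : Prop :=
  ∀ D : VD, D.Good → ∀ h : D.G,
    (∀ x, D.gr (oext D.ρ h x) = D.ρY h (D.gr x)) ∧
    ∀ p q, LP D p q → LP D (oext D.ρ h p) (oext D.ρ h q)

/-- The proper transform of a line. -/
def ST_MEM0 : Prop :=
  ∀ D : VD, D.Good → ∀ p q, LP D p q →
    ∃ (y : Option (Fin D.w) × D.ν → Polynomial ℂ) (η : D.ν → Polynomial ℂ),
      Mor D.a y ∧ Mor (D.a - 1) η ∧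
      (∀ s t : ℂ, hevv D.a y s t = seg (s • p + t • q) (hevv (D.a - 1) η s t)) ∧
      (∀ s t : ℂ, hevv D.a y s t ∈ D.Y) ∧
      ∀ s t : ℂ, (s * p none + t * q none) • hevv (D.a - 1) η s t = ev D.F (s • p + t • q)

/-- Polynomial parametrization of the lines. -/
def ST_PAR0 : Prop :=
  ∀ D : VD, D.Good →
    ∃ Ψ : (Option (Fin D.w) × D.ν) × Fin (D.a + 1) →
      MvPolynomial (Fin D.w ⊕ (Fin 4 ⊕ Fin D.w)) ℂ,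
    ∀ (u : Fin D.w → ℂ) (σ : Fin 4 → ℂ), ∀ z ∈ D.Z, ∀ s t : ℂ,
      (s * σ 0 + t * σ 1) • cev D.a (ev Ψ (Sum.elim u (Sum.elim σ z))) s t =
        D.gr (s • ov (σ 0) (σ 0 • u + σ 2 • z) + t • ov (σ 1) (σ 1 • u + σ 3 • z))

/-- Lines in general position avoid the fixed points. -/
def ST_LINE : Prop :=
  ∀ (D : VD) (M : ℕ) (g : D.G), TD D M g → ∀ u, (∀ z ∈ D.Z, z ≠ 0 → u ∉ TT D.F z) →
    ∀ z ∈ D.Z, z ≠ 0 → ∀ y : Option (Fin D.w) × D.ν → Polynomial ℂ, Mor D.a y →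
    (∀ s t : ℂ, s • hevv D.a y s t = D.gr (s • ov 1 u + t • ov 0 z)) →
    ∀ s t : ℂ, (s, t) ≠ (0, 0) → hevv D.a y s t ∉ FX D (g ^ (2 ^ M))

/-- General points of the vector space. -/
def ST_GENP : Prop :=
  ∀ (D : VD) (M : ℕ) (g : D.G), TD D M g →
    (∃ i j : D.ι, ∀ z, z ∈ D.Zi i → z ∈ D.Zi j → z = 0) →
    ∃ A : Set (Fin D.w → ℂ), ZClosed A ∧ (∀ a : ℂ, ∀ u ∈ A, a • u ∈ A) ∧
      (∀ u ∈ A, D.ρ g u ∈ A) ∧ (∃ u, u ∉ A) ∧ ∀ u, u ∉ A → GenP D M g u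

/-! ### E. the curves in the resolved quotient -/

/-- Composition of a polynomial map with a vector of binary forms, in coefficients. -/
def ST_COMPE : Prop :=
  ∀ (κ : Type) [Fintype κ] (N m d : ℕ) (E : Fin (N + 1) → MvPolynomial κ ℂ),
    (∀ i, HomE m (E i)) →
    ∃ Q : Fin (N + 1) × Fin (m * d + 1) → MvPolynomial (κ × Fin (d + 1)) ℂ,
      ∀ (c : κ × Fin (d + 1) → ℂ) (s t : ℂ),
        pt (fun i => eval c (Q i) : Coef N (m * d)) s t = ev E (cev d c s t)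

/-- The curves meeting a closed cone, and the curves contained in it, form closed sets. -/
def ST_RESD : Prop :=
  ∀ (N d : ℕ) (S : Set (Fin (N + 1) → ℂ)), ZClosed S → (∀ a : ℂ, ∀ x ∈ S, a • x ∈ S) →
    S.Nonempty →
    ZClosed {c : Coef N d | ∃ s t : ℂ, (s, t) ≠ (0, 0) ∧ pt c s t ∈ S} ∧
    ZClosed {c : Coef N d | ∀ s t : ℂ, pt c s t ∈ S}

/-- Data for the following statements: a member of the family is the image of the proper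
transform of a line. -/
def ST_MEM2 : Prop :=
  ∀ (D : VD) (M : ℕ) (g : D.G) (N : ℕ)
    (E : Fin (N + 1) → MvPolynomial (Option (Fin D.w) × D.ν) ℂ) (X DX : Set (Fin (N + 1) → ℂ))
    (ε : ℂ), TR D M g N E X DX ε → ∀ p q, LP D p q →
    ∀ c : Coef N (4 ^ (M + 1) * D.a),
    (∀ s t : ℂ, (s * p none + t * q none) ^ 4 ^ (M + 1) • pt c s t =
      ev E (D.gr (s • p + t • q))) →
    (∀ s t : ℂ, (s, t) ≠ (0, 0) → pt c s t ∉ DX) →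
    ∃ (y : Option (Fin D.w) × D.ν → Polynomial ℂ) (η : D.ν → Polynomial ℂ),
      Mor D.a y ∧ Mor (D.a - 1) η ∧
      (∀ s t : ℂ, hevv D.a y s t = seg (s • p + t • q) (hevv (D.a - 1) η s t)) ∧
      (∀ s t : ℂ, hevv D.a y s t ∈ D.Y) ∧
      (∀ s t : ℂ, (s * p none + t * q none) • hevv (D.a - 1) η s t =
        ev D.F (s • p + t • q)) ∧
      (∀ s t : ℂ, pt c s t = ev E (hevv D.a y s t)) ∧
      ∀ s t : ℂ, (s, t) ≠ (0, 0) → hevv D.a y s t ∉ FX D (g ^ (2 ^ M))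

/-- The group acts on the data of a member of the family. -/
def ST_HTR2 : Prop :=
  ∀ (D : VD) (M : ℕ) (g : D.G) (N : ℕ)
    (E : Fin (N + 1) → MvPolynomial (Option (Fin D.w) × D.ν) ℂ) (X DX : Set (Fin (N + 1) → ℂ))
    (ε : ℂ), TR D M g N E X DX ε → ∀ (h : D.G) (p q : Option (Fin D.w) → ℂ), LP D p q →
    ∃ lam : ℂ, lam ≠ 0 ∧ LP D (lam • oext D.ρ h p) (lam • oext D.ρ h q) ∧
      ∀ c : Coef N (4 ^ (M + 1) * D.a),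
      (∀ s t : ℂ, (s * p none + t * q none) ^ 4 ^ (M + 1) • pt c s t =
        ev E (D.gr (s • p + t • q))) →
      ∀ s t : ℂ, (s * (lam • oext D.ρ h p) none + t * (lam • oext D.ρ h q) none) ^ 4 ^ (M + 1) •
        pt c s t = ev E (D.gr (s • (lam • oext D.ρ h p) + t • (lam • oext D.ρ h q)))

/-- The members of the family are curves. -/
def ST_HCUR2 : Prop :=
  ∀ (D : VD) (M : ℕ) (g : D.G) (N : ℕ)
    (E : Fin (N + 1) → MvPolynomial (Option (Fin D.w) × D.ν) ℂ) (X DX : Set (Fin (N + 1) → ℂ))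
    (ε : ℂ), TR D M g N E X DX ε → ∀ c ∈ H2 D M N E DX, IsCurve X c

/-- Existence of members through the points over a vector in general position. -/
def ST_THR2 : Prop :=
  ∀ (D : VD) (M : ℕ) (g : D.G) (N : ℕ)
    (E : Fin (N + 1) → MvPolynomial (Option (Fin D.w) × D.ν) ℂ) (X DX : Set (Fin (N + 1) → ℂ))
    (ε : ℂ), TR D M g N E X DX ε → ∀ u, (∀ z ∈ D.Z, z ≠ 0 → u ∉ TT D.F z) →
    ∀ c₀ : ℂ, c₀ ≠ 0 →
    ∃ Φ : Fin (N + 1) × Fin (4 ^ (M + 1) * D.a + 1) → MvPolynomial (Fin D.w) ℂ,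
      ∀ z ∈ D.Z, (∀ s t : ℂ, s ^ 4 ^ (M + 1) •
          pt (fun i => eval z (Φ i) : Coef N (4 ^ (M + 1) * D.a)) s t =
            ev E (c₀ • D.gr (s • ov 1 u + t • ov 0 z))) ∧
        pt (fun i => eval z (Φ i) : Coef N (4 ^ (M + 1) * D.a)) 1 0 =
          ev E (c₀ • D.gr (ov 1 u)) ∧
        (∀ a s t : ℂ, pt (fun i => eval (a • z) (Φ i) : Coef N (4 ^ (M + 1) * D.a)) s t =
          pt (fun i => eval z (Φ i) : Coef N (4 ^ (M + 1) * D.a)) s (a * t)) ∧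
        (z ≠ 0 → (fun i => eval z (Φ i)) ∈ H2 D M N E DX)

/-- The family is irreducible. -/
def ST_HIRR2 : Prop :=
  ∀ (D : VD) (M : ℕ) (g : D.G) (N : ℕ)
    (E : Fin (N + 1) → MvPolynomial (Option (Fin D.w) × D.ν) ℂ) (X DX : Set (Fin (N + 1) → ℂ))
    (ε : ℂ), TR D M g N E X DX ε → (∃ u, ∀ z ∈ D.Z, z ≠ 0 → u ∉ TT D.F z) →
    (vanishingIdeal ℂ (H2 D M N E DX)).IsPrime

/-- Classification of the curves of degree `4 ^ (M + 1) * a` outside the boundary. -/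
def ST_CURV2 : Prop :=
  ∀ (D : VD) (M : ℕ) (g : D.G) (N : ℕ)
    (E : Fin (N + 1) → MvPolynomial (Option (Fin D.w) × D.ν) ℂ) (X DX : Set (Fin (N + 1) → ℂ))
    (ε : ℂ), TR D M g N E X DX ε →
    ∃ L : Set (Fin (N + 1) → ℂ), ZClosed L ∧ (∀ a : ℂ, ∀ x ∈ L, a • x ∈ L) ∧ L.Nonempty ∧
      (∀ y ∈ D.Y, y ∉ FX D (g ^ (2 ^ M)) → (ev E y ∈ L ↔ ∀ j, y (none, j) = 0)) ∧
      ∀ c : Coef N (4 ^ (M + 1) * D.a), (∀ s t : ℂ, pt c s t ∈ X) →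
        (∀ s t : ℂ, (s, t) ≠ (0, 0) → pt c s t ∉ DX) → (∃ s t : ℂ, pt c s t ∉ L) →
        c ∈ H2 D M N E DX

/-- The family is locally closed, and open in the space of all curves. -/
def ST_HLC2 : Prop :=
  ∀ (D : VD) (M : ℕ) (g : D.G) (N : ℕ)
    (E : Fin (N + 1) → MvPolynomial (Option (Fin D.w) × D.ν) ℂ) (X DX : Set (Fin (N + 1) → ℂ))
    (ε : ℂ), TR D M g N E X DX ε →
    (∃ A B : Set (Coef N (4 ^ (M + 1) * D.a)), ZClosed A ∧ ZClosed B ∧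
      H2 D M N E DX = A \ B) ∧
    ∃ C : Set (Coef N (4 ^ (M + 1) * D.a)), ZClosed C ∧
      ∀ c, IsCurve X c → (c ∈ H2 D M N E DX ↔ c ∉ C)

/-- General points of the resolved quotient. -/
def ST_AX : Prop :=
  ∀ (D : VD) (M : ℕ) (g : D.G) (N : ℕ)
    (E : Fin (N + 1) → MvPolynomial (Option (Fin D.w) × D.ν) ℂ) (X DX : Set (Fin (N + 1) → ℂ))
    (ε : ℂ), TR D M g N E X DX ε → ∀ A : Set (Fin D.w → ℂ), ZClosed A →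
    (∀ a : ℂ, ∀ u ∈ A, a • u ∈ A) → (∀ u ∈ A, D.ρ g u ∈ A) → (∃ u, u ∉ A) →
    ∃ A' : Set (Fin (N + 1) → ℂ), ZClosed A' ∧ (∃ v ∈ X, v ≠ 0 ∧ v ∉ A') ∧
      ∀ v ∈ X, v ≠ 0 → v ∉ A' →
        ∃ (c₀ : ℂ) (u : Fin D.w → ℂ), c₀ ≠ 0 ∧ u ∉ A ∧ v = ev E (c₀ • D.gr (ov 1 u))

/-- Uniqueness: the members of the family through a general point. -/
def ST_UNI2 : Prop :=
  ∀ (D : VD) (M : ℕ) (g : D.G) (N : ℕ)
    (E : Fin (N + 1) → MvPolynomial (Option (Fin D.w) × D.ν) ℂ) (X DX : Set (Fin (N + 1) → ℂ))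
    (ε : ℂ), TR D M g N E X DX ε → ∀ (u : Fin D.w → ℂ) (c₀ : ℂ), c₀ ≠ 0 → u ≠ 0 →
    ∀ c ∈ H2 D M N E DX, ∀ s₀ t₀ : ℂ, (s₀, t₀) ≠ (0, 0) →
    pt c s₀ t₀ = ev E (c₀ • D.gr (ov 1 u)) →
    ∃ z ∈ D.Z, z ≠ 0 ∧ ∃ α β γ δ : ℂ, α * δ - β * γ ≠ 0 ∧
      α * s₀ + β * t₀ = 1 ∧ γ * s₀ + δ * t₀ = 0 ∧ ∀ s t : ℂ,
        (α * s + β * t) ^ 4 ^ (M + 1) • pt c s t =
          ev E (c₀ • D.gr ((α * s + β * t) • ov 1 u + (γ * s + δ * t) • ov 0 z))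

/-- The members of the family through a general point are nonsingular there. -/
def ST_SM2 : Prop :=
  ∀ (D : VD) (M : ℕ) (g : D.G) (N : ℕ)
    (E : Fin (N + 1) → MvPolynomial (Option (Fin D.w) × D.ν) ℂ) (X DX : Set (Fin (N + 1) → ℂ))
    (ε : ℂ), TR D M g N E X DX ε → ∀ u, GenP D M g u → ∀ c₀ : ℂ, c₀ ≠ 0 →
    ∀ z ∈ D.Z, z ≠ 0 → ∀ c : Coef N (4 ^ (M + 1) * D.a),
    (∀ s t : ℂ, s ^ 4 ^ (M + 1) • pt c s t = ev E (c₀ • D.gr (s • ov 1 u + t • ov 0 z))) →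
    SmoothAt c 1 0 ∧ (∃ a : ℂ, a ≠ 0 ∧ dpt c 1 0 = dTh2 D E c₀ u (a • z)) ∧
      ∃ a : ℂ, dps c 1 0 = a • ev E (c₀ • D.gr (ov 1 u))

/-- The tangents of the family at a general point. -/
def ST_VT2 : Prop :=
  ∀ (D : VD) (M : ℕ) (g : D.G) (N : ℕ)
    (E : Fin (N + 1) → MvPolynomial (Option (Fin D.w) × D.ν) ℂ) (X DX : Set (Fin (N + 1) → ℂ))
    (ε : ℂ), TR D M g N E X DX ε → ∀ u, GenP D M g u → ∀ c₀ : ℂ, c₀ ≠ 0 →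
    tangents (H2 D M N E DX) (ev E (c₀ • D.gr (ov 1 u))) =
      {u' | ∃ z ∈ D.Z, ∃ a : ℂ, u' = dTh2 D E c₀ u z + a • ev E (c₀ • D.gr (ov 1 u))}

/-- The tangent space of `X` at a general point. -/
def ST_VTS2 : Prop :=
  ∀ (D : VD) (M : ℕ) (g : D.G) (N : ℕ)
    (E : Fin (N + 1) → MvPolynomial (Option (Fin D.w) × D.ν) ℂ) (X DX : Set (Fin (N + 1) → ℂ))
    (ε : ℂ), TR D M g N E X DX ε → ∀ (u : Fin D.w → ℂ) (c₀ : ℂ), c₀ ≠ 0 → u ≠ 0 →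
    ∃ f : (Fin D.w → ℂ) →ₗ[ℂ] (Fin (N + 1) → ℂ), Function.Injective f ∧
      (∀ z, f z = dTh2 D E c₀ u z) ∧
      LinearMap.range f ⊓ Submodule.span ℂ {ev E (c₀ • D.gr (ov 1 u))} = ⊥ ∧
      LinearMap.range f ⊔ Submodule.span ℂ {ev E (c₀ • D.gr (ov 1 u))} =
        tsp X (ev E (c₀ • D.gr (ov 1 u)))

/-- Isotriviality at the general point. -/
def ST_ISO2 : Prop :=
  ∀ (D : VD) (M : ℕ) (g : D.G) (N : ℕ)
    (E : Fin (N + 1) → MvPolynomial (Option (Fin D.w) × D.ν) ℂ) (X DX : Set (Fin (N + 1) → ℂ))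
    (ε : ℂ), TR D M g N E X DX ε → ∀ u, GenP D M g u → ∀ c₀ : ℂ, c₀ ≠ 0 →
    IsotrivialAt X (H2 D M N E DX) D.Z (ev E (c₀ • D.gr (ov 1 u)))

/-- The existence theorem. -/
def ST_MAIN2 : Prop :=
  ∀ (D : VD) (M : ℕ) (g : D.G), TD D M g →
    (∃ i j : D.ι, ∀ z, z ∈ D.Zi i → z ∈ D.Zi j → z = 0) →
    ∃ (N d : ℕ) (X : Set (Fin (N + 1) → ℂ)) (H : Set (Coef N d)),
      IsProjManifold D.w N X ∧ IsFamily X H ∧ IsMinimalComponent X H ∧ Isotrivial X H D.Z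

/-- A linear automorphism of `Z` permuting the `2 ^ k` components cyclically can be chosen so that
a power of it with exponent a power of `2` is `-1`. -/
def ST_GEN0 : Prop :=
  ∀ (n k : ℕ) (ι : Type) [Finite ι] (Z : ι → Set (Fin n → ℂ)), IsComponents Z →
    Nat.card ι = 2 ^ k → ∀ a : (Fin n → ℂ) ≃ₗ[ℂ] (Fin n → ℂ),
    a '' (⋃ i, Z i) = ⋃ i, Z i → (∀ i j, ∃ m : ℕ, (a ^ m : _ ≃ₗ[ℂ] _) '' Z i = Z j) →
    ∃ (M : ℕ) (γ : (Fin n → ℂ) ≃ₗ[ℂ] (Fin n → ℂ)), γ '' (⋃ i, Z i) = ⋃ i, Z i ∧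
      (∀ x, (γ ^ (2 ^ M)) x = -x) ∧ ∀ i j, ∃ m : ℕ, (γ ^ m : _ ≃ₗ[ℂ] _) '' Z i = Z j

/-- The final theorem. -/
def ST_FINAL2 : Prop :=
  ∀ (n k : ℕ) (ι : Type) [Finite ι] (Z : ι → Set (Fin n → ℂ)), IsComponents Z →
    SmoothCone (⋃ i, Z i) → (∀ i j, i ≠ j → Z i ∩ Z j ⊆ {0}) → 1 ≤ k →
    Nat.card ι = 2 ^ k → ∀ a : (Fin n → ℂ) ≃ₗ[ℂ] (Fin n → ℂ),
    a '' (⋃ i, Z i) = ⋃ i, Z i → (∀ i j, ∃ m : ℕ, (a ^ m : _ ≃ₗ[ℂ] _) '' Z i = Z j) →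
    ∃ (N d : ℕ) (X : Set (Fin (N + 1) → ℂ)) (H : Set (Coef N d)),
      IsProjManifold n N X ∧ IsFamily X H ∧ IsMinimalComponent X H ∧
        Isotrivial X H (⋃ i, Z i)

end Pool.Agent.Helper87.TC
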