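import Pool.Agent.Helper87.TC.Defs

/-!
Additional statements: the components of a nonsingular projective variety are disjoint.
-/

set_option autoImplicit false

namespace Pool.Agent.Helper87.TC

open MvPolynomial Pool.Agent.Helper48.VMRT Pool.Agent.Helper87.VM

/-- The local ring of the scheme `F = 0` at a point where the differentials are independent is an
integral domain. -/
def ST_LDOM : Prop :=
  ∀ (n c : ℕ) (F : Fin c → MvPolynomial (Fin n) ℂ) (z : Fin n → ℂ), (∀ i, eval z (F i) = 0) →
    LinearIndependent ℂ (fun i => (fun j => eval z (pderiv j (F i)) : Fin n → ℂ)) →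
    ∀ f g h : MvPolynomial (Fin n) ℂ, eval z h ≠ 0 →
      h * (f * g) ∈ Ideal.span (Set.range F) →
      (∃ h' : MvPolynomial (Fin n) ℂ, eval z h' ≠ 0 ∧ h' * f ∈ Ideal.span (Set.range F)) ∨
      ∃ h' : MvPolynomial (Fin n) ℂ, eval z h' ≠ 0 ∧ h' * g ∈ Ideal.span (Set.range F)

/-- The components of a nonsingular projective variety are disjoint. -/
def ST_DISJ : Prop :=
  ∀ (n : ℕ) (ι : Type) [Finite ι] (Z : ι → Set (Fin n → ℂ)), IsComponents Z →
    SmoothCone (⋃ i, Z i) → ∀ i j, i ≠ j → Z i ∩ Z j ⊆ {0}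

end Pool.Agent.Helper87.TC
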